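import Pool.Agent.T2H80.Bes.QuotMain

set_option autoImplicit false
set_option linter.unusedSectionVars false

open Finset

namespace Pool.Agent.T2H80.Bes

theorem action (k : ℕ) (hk : k = 21 ∨ 25 ≤ k) : ∃ C : ℝ, 0 < C ∧
    ∀ (V Ω Γ : Type) [Fintype V] [DecidableEq V] [Group Γ] [MulAction Γ Ω] (a c : V → Ω)
      (γ : V → Γ) (x y z : Finset V → V) (H : Finset (Finset V)) (G : Set Γ) (D : ℕ),
      Function.Injective a →
      (∀ e ∈ H, e.card = 3 ∧ e = {x e, y e, z e}) →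
      (∀ e ∈ H, c (z e) = γ (y e) • a (x e)) →
      (∀ S : Finset V, S.card = k → #{e ∈ H | e ⊆ S} < k - 3) →
      G = {g | ∃ e ∈ H, ∃ f ∈ H, g = (γ (y f))⁻¹ * γ (y e)} →
      (∀ v w, {g | g ∈ G ∧ g • a v = a w}.ncard ≤ D) →
      (#H : ℝ) ≤ C * (Fintype.card V : ℝ) ^ (5 / 3 : ℝ) * (G.ncard : ℝ) ^ (1 / 6 : ℝ) ∧
      (#H : ℝ) ≤ C * (D : ℝ) ^ (1 / 6 : ℝ) * (Fintype.card V : ℝ) ^ (11 / 6 : ℝ) := by
  classical
  obtain ⟨c0, C, hc0, hC, h⟩ := few_quot k hk
  refine ⟨C, hC, ?_⟩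
  intro V Ω Γ _ _ _ _ a c γ x y z H G D ha h3 hH hfree hG hD
  rcases H.eq_empty_or_nonempty with rfl | hne
  · rw [card_empty, Nat.cast_zero]
    constructor <;> positivity
  obtain ⟨e0, he0⟩ := hne
  have hfin : G.Finite := by
    have h1 : G ⊆ (fun q : Finset V × Finset V => (γ (y q.2))⁻¹ * γ (y q.1)) '' (H ×ˢ H : Finset _) := by
      intro g hg
      rw [hG] at hg
      obtain ⟨e, he, f, hf, rfl⟩ := hg
      exact ⟨(e, f), by simp [he, hf], rfl⟩
    exact (Set.Finite.image _ (Finset.finite_toSet _)).subset h1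
  have hmem : ∀ e ∈ H, ∀ f ∈ H, (γ (y f))⁻¹ * γ (y e) ∈ G := by
    intro e he f hf
    rw [hG]
    exact ⟨e, he, f, hf, rfl⟩
  have : Fintype G := hfin.fintype
  let g0 : G := ⟨_, hmem e0 he0 e0 he0⟩
  let lab : V → V → G := fun v w => if hg : (γ w)⁻¹ * γ v ∈ G then ⟨_, hg⟩ else g0
  let φ : G → V → Option V := fun g v =>
    if hw : ∃ w, a w = g.1 • a v then some hw.choose else none
  have hlab : ∀ e ∈ H, ∀ f ∈ H, (lab (y e) (y f)).1 = (γ (y f))⁻¹ * γ (y e) := by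
    intro e he f hf
    have : lab (y e) (y f) = ⟨_, hmem e he f hf⟩ := dif_pos (hmem e he f hf)
    rw [this]
  have hφ1 : ∀ g v w, a w = g.1 • a v → φ g v = some w := by
    intro g v w hw
    have h1 : ∃ w, a w = g.1 • a v := ⟨w, hw⟩
    have h2 : φ g v = some h1.choose := dif_pos h1
    rw [h2]
    congr 1
    exact ha (h1.choose_spec.trans hw.symm)
  have hφ2 : ∀ g v, φ g v ≠ none → ∃ w, a w = g.1 • a v := by
    intro g v hne
    by_contra hcon
    exact hne (dif_neg hcon)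
  obtain ⟨n, hn⟩ : ∃ n, n = Fintype.card V := ⟨_, rfl⟩
  have hmain := h V G x y z H lab φ h3 hfree (by
    have h1 : #{q ∈ H ×ˢ H | z q.1 = z q.2 ∧
        φ (lab (y q.1) (y q.2)) (x q.1) ≠ some (x q.2)} = 0 := by
      rw [card_eq_zero, filter_eq_empty_iff]
      intro q hq
      rw [mem_product] at hq
      rintro ⟨hz, hbad⟩
      apply hbad
      apply hφ1
      rw [hlab _ hq.1 _ hq.2]
      have h1 := hH q.1 hq.1
      have h2 := hH q.2 hq.2
      rw [hz, h2] at h1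
      rw [mul_smul, ← h1, inv_smul_smul]
    rw [h1, Nat.cast_zero, mul_zero]
    exact mul_nonneg hc0.le (sq_nonneg _))
  rw [← hn] at hmain ⊢
  have hn1 : 1 ≤ n := by
    rw [hn, Nat.succ_le_iff, Fintype.card_pos_iff]
    exact ⟨x e0⟩
  have hN : (0 : ℝ) < n := by exact_mod_cast hn1
  have hGc : G.ncard = Fintype.card G := by
    rw [← Nat.card_coe_set_eq, Nat.card_eq_fintype_card]
  have hT1 : ∑ g : G, #{v | φ g v ≠ none} ≤ n * G.ncard := by
    calc ∑ g : G, #{v | φ g v ≠ none} ≤ ∑ _g : G, n := by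
          refine sum_le_sum fun g _ => ?_
          rw [hn]
          exact card_le_univ _
      _ = n * G.ncard := by rw [sum_const, card_univ, smul_eq_mul, hGc, mul_comm]
  have hT2 : ∑ g : G, #{v | φ g v ≠ none} ≤ D * n ^ 2 := by
    calc ∑ g : G, #{v | φ g v ≠ none} ≤ ∑ g : G, ∑ v : V, #{w | a w = g.1 • a v} := by
          refine sum_le_sum fun g _ => ?_
          rw [card_filter]
          refine sum_le_sum fun v _ => ?_
          split_ifs with hv
          · obtain ⟨w, hw⟩ := hφ2 g v hv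
            exact Nat.succ_le_of_lt (card_pos.2 ⟨w, by simpa using hw⟩)
          · exact Nat.zero_le _
      _ = ∑ v : V, ∑ w : V, #{g : G | a w = g.1 • a v} := by
          rw [sum_comm]
          refine sum_congr rfl fun v _ => ?_
          simp only [card_filter]
          rw [sum_comm]
      _ ≤ ∑ _v : V, ∑ _w : V, D := by
          refine sum_le_sum fun v _ => sum_le_sum fun w _ => ?_
          refine le_trans ?_ (hD v w)
          have hfin2 : {g | g ∈ G ∧ g • a v = a w}.Finite := hfin.subset fun g hg => hg.1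
          rw [← Set.ncard_coe_finset]
          refine Set.ncard_le_ncard_of_injOn (fun g : G => g.1) ?_ ?_ hfin2
          · intro g hg
            simp only [coe_filter, mem_univ, true_and, Set.mem_ofPred_eq] at hg
            exact ⟨g.2, hg.symm⟩
          · intro g _ g' _ hgg
            exact Subtype.ext hgg
      _ = D * n ^ 2 := by
          rw [sum_const, sum_const, card_univ, smul_eq_mul, smul_eq_mul, hn]
          ring
  constructor
  · refine hmain.trans ?_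
    have h1 : ((∑ g : G, #{v | φ g v ≠ none} : ℕ) : ℝ) ^ (1 / 6 : ℝ) ≤
        ((n : ℝ) * G.ncard) ^ (1 / 6 : ℝ) := by
      refine Real.rpow_le_rpow (Nat.cast_nonneg _) ?_ (by norm_num)
      exact_mod_cast hT1
    rw [Real.mul_rpow hN.le (Nat.cast_nonneg _)] at h1
    have h2 : (n : ℝ) ^ (5 / 3 : ℝ) = (n : ℝ) ^ (3 / 2 : ℝ) * (n : ℝ) ^ (1 / 6 : ℝ) := by
      rw [← Real.rpow_add hN]
      norm_num
    rw [mul_assoc, h2, mul_assoc]
    refine mul_le_mul_of_nonneg_left ?_ hC.le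
    exact mul_le_mul_of_nonneg_left h1 (by positivity)
  · refine hmain.trans ?_
    have h1 : ((∑ g : G, #{v | φ g v ≠ none} : ℕ) : ℝ) ^ (1 / 6 : ℝ) ≤
        ((D : ℝ) * (n : ℝ) ^ 2) ^ (1 / 6 : ℝ) := by
      refine Real.rpow_le_rpow (Nat.cast_nonneg _) ?_ (by norm_num)
      exact_mod_cast hT2
    rw [Real.mul_rpow (Nat.cast_nonneg _) (by positivity), ← Real.rpow_natCast (n : ℝ) 2,
      ← Real.rpow_mul hN.le] at h1
    have h2 : (n : ℝ) ^ (11 / 6 : ℝ) =
        (n : ℝ) ^ (3 / 2 : ℝ) * (n : ℝ) ^ (((2 : ℕ) : ℝ) * (1 / 6 : ℝ)) := by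
      rw [← Real.rpow_add hN]
      norm_num
    rw [mul_assoc, h2]
    refine mul_le_mul_of_nonneg_left ?_ hC.le
    calc (n : ℝ) ^ (3 / 2 : ℝ) * ((∑ g : G, #{v | φ g v ≠ none} : ℕ) : ℝ) ^ (1 / 6 : ℝ)
        ≤ (n : ℝ) ^ (3 / 2 : ℝ) * ((D : ℝ) ^ (1 / 6 : ℝ) *
          (n : ℝ) ^ (((2 : ℕ) : ℝ) * (1 / 6 : ℝ))) :=
          mul_le_mul_of_nonneg_left h1 (by positivity)
      _ = _ := by ring

end Pool.Agent.T2H80.Bes
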