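import Mathlib

set_option autoImplicit false

open Finset

namespace Pool.Agent.T2H80.Bes

/-- Here `r + 2` is the number of strands, `s + 2` the number of points, `t` the number of
curves. -/
lemma calc1 (r s t : ℕ) : ∃ C : ℝ, 1 ≤ C ∧ ∀ (n P h : ℕ) (u B : ℝ), 1 ≤ n → 0 < u → 0 < B →
    u ^ ((r + 2) * (s + 1) + 1) * (n : ℝ) ^ (r + 1) = (P : ℝ) ^ (r + 2) →
    B ^ (r + 2) = (n : ℝ) ^ (2 * r + 3) * u ^ ((r + 2) * (s + 1)) →
    h ≤ P * n → h ≤ n ^ 2 →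
    (∀ K : ℕ, 1 ≤ K → K ≤ n → ∃ I M : ℕ, M ≤ P ^ (r + 2) * ((r + 2) * (n / K) + 1) ∧
      (I - (s + 1) * M) ^ (s + 2) ≤ M ^ (s + 1) * (t * (n * K ^ (s + 1)) ^ (r + 2)) ∧
      h ^ (r + 2) ≤ n ^ (r + 1) * (I + (r + 2) * (r + 2) * (h * (K * n ^ r)))) →
    (h : ℝ) ≤ C * B := by
  set C1 : ℝ := ((r : ℝ) + 3) ^ (s + 1) * t * 2 ^ ((r + 2) * (s + 1)) + 1 with hC1
  set C2 : ℝ := C1 + ((s : ℝ) + 1) * (r + 3) with hC2
  have hC1' : 1 ≤ C1 := by
    rw [hC1]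
    have : (0 : ℝ) ≤ ((r : ℝ) + 3) ^ (s + 1) * t * 2 ^ ((r + 2) * (s + 1)) := by positivity
    linarith
  have hC2' : 1 ≤ C2 := by
    rw [hC2]
    have : (0 : ℝ) ≤ ((s : ℝ) + 1) * (r + 3) := by positivity
    linarith
  have hC3 : 1 ≤ C2 + 2 * ((r : ℝ) + 2) ^ 2 + 1 := by
    have : (0 : ℝ) ≤ 2 * ((r : ℝ) + 2) ^ 2 := by positivity
    linarith
  refine ⟨C2 + 2 * ((r : ℝ) + 2) ^ 2 + 1, hC3, ?_⟩
  set C3 : ℝ := C2 + 2 * ((r : ℝ) + 2) ^ 2 + 1 with hC3d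
  intro n P h u B hn hu hB hu1 hB1 hhP hhn hK
  have hN : (1 : ℝ) ≤ n := by exact_mod_cast hn
  have hN0 : (0 : ℝ) < n := by linarith
  have hBC : B ≤ C3 * B := le_mul_of_one_le_left hB.le hC3
  have hh0 : (0 : ℝ) ≤ h := Nat.cast_nonneg h
  rcases lt_or_ge u 1 with hu2 | hu2
  · -- few pieces
    refine le_trans ?_ hBC
    have h1 : (h : ℝ) ≤ P * n := by exact_mod_cast hhP
    refine h1.trans ?_
    refine le_of_pow_le_pow_left₀ (n := r + 2) (by omega) hB.le ?_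
    rw [mul_pow, ← hu1, hB1]
    have h2 : u ^ ((r + 2) * (s + 1) + 1) * (n : ℝ) ^ (r + 1) * (n : ℝ) ^ (r + 2) =
        u * ((n : ℝ) ^ (2 * r + 3) * u ^ ((r + 2) * (s + 1))) := by ring
    rw [h2]
    have h3 : 0 ≤ (n : ℝ) ^ (2 * r + 3) * u ^ ((r + 2) * (s + 1)) := by positivity
    exact mul_le_of_le_one_left h3 hu2.le
  rcases lt_or_ge (n : ℝ) u with hu3 | hu3
  · -- many pieces
    refine le_trans ?_ hBC
    have h1 : (h : ℝ) ≤ (n : ℝ) ^ 2 := by exact_mod_cast hhn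
    refine h1.trans ?_
    refine le_of_pow_le_pow_left₀ (n := r + 2) (by omega) hB.le ?_
    rw [hB1]
    have h2 : ((n : ℝ) ^ 2) ^ (r + 2) = (n : ℝ) ^ (2 * r + 3) * n := by ring
    rw [h2]
    refine mul_le_mul_of_nonneg_left ?_ (by positivity)
    refine hu3.le.trans ?_
    exact le_self_pow₀ hu2 (by positivity)
  -- the main case
  have hK1 : 1 ≤ ⌈u⌉₊ := Nat.one_le_ceil_iff.2 hu
  have hK2 : ⌈u⌉₊ ≤ n := Nat.ceil_le.2 hu3
  have hK3 : u ≤ (⌈u⌉₊ : ℝ) := Nat.le_ceil u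
  have hK4 : (⌈u⌉₊ : ℝ) ≤ 2 * u := by
    have := Nat.ceil_lt_add_one hu.le
    linarith
  obtain ⟨I, M, hM, hI, hh⟩ := hK ⌈u⌉₊ hK1 hK2
  set K := ⌈u⌉₊ with hKdef
  have hK0 : (0 : ℝ) < K := by linarith
  set W : ℝ := (n : ℝ) ^ (r + 2) * u ^ ((r + 2) * (s + 1)) with hW
  have hW0 : 0 < W := by positivity
  have hNW : (n : ℝ) ^ (r + 1) * W = B ^ (r + 2) := by rw [hB1, hW]; ring
  -- the number of pairs (curve, cell)
  have hM1 : (M : ℝ) ≤ (r + 3) * W := by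
    have h1 : (M : ℝ) ≤ (P : ℝ) ^ (r + 2) * ((r + 2) * ((n / K : ℕ) : ℝ) + 1) := by
      exact_mod_cast hM
    have h2 : ((n / K : ℕ) : ℝ) ≤ n / K := Nat.cast_div_le
    have h3 : (1 : ℝ) ≤ n / K := by
      rw [le_div_iff₀ hK0, one_mul]
      exact_mod_cast hK2
    have h4 : (n : ℝ) / K ≤ n / u := div_le_div_of_nonneg_left hN0.le hu hK3
    have h5 : ((r : ℝ) + 2) * ((n / K : ℕ) : ℝ) + 1 ≤ (r + 3) * (n / u) := by
      have h6 : ((r : ℝ) + 2) * ((n / K : ℕ) : ℝ) ≤ (r + 2) * (n / K) :=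
        mul_le_mul_of_nonneg_left h2 (by positivity)
      have h7 : ((r : ℝ) + 3) * (n / K) ≤ (r + 3) * (n / u) :=
        mul_le_mul_of_nonneg_left h4 (by positivity)
      linarith
    calc (M : ℝ) ≤ (P : ℝ) ^ (r + 2) * ((r + 2) * ((n / K : ℕ) : ℝ) + 1) := h1
      _ ≤ (P : ℝ) ^ (r + 2) * ((r + 3) * (n / u)) :=
          mul_le_mul_of_nonneg_left h5 (by positivity)
      _ = (r + 3) * W := by
          rw [← hu1, hW]
          field_simp
          ring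
  -- the incidences
  have hJ : ((I - (s + 1) * M : ℕ) : ℝ) ≤ C1 * W := by
    refine le_of_pow_le_pow_left₀ (n := s + 2) (by omega) (by positivity) ?_
    have h1 : ((I - (s + 1) * M : ℕ) : ℝ) ^ (s + 2) ≤
        (M : ℝ) ^ (s + 1) * (t * (n * (K : ℝ) ^ (s + 1)) ^ (r + 2)) := by exact_mod_cast hI
    refine h1.trans ?_
    have h2 : (M : ℝ) ^ (s + 1) ≤ ((r + 3) * W) ^ (s + 1) :=
      pow_le_pow_left₀ (Nat.cast_nonneg M) hM1 _
    have h3 : ((n : ℝ) * (K : ℝ) ^ (s + 1)) ^ (r + 2) ≤ 2 ^ ((r + 2) * (s + 1)) * W := by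
      have h4 : (K : ℝ) ^ (s + 1) ≤ (2 * u) ^ (s + 1) := pow_le_pow_left₀ hK0.le hK4 _
      have h5 : ((n : ℝ) * (K : ℝ) ^ (s + 1)) ^ (r + 2) ≤ ((n : ℝ) * (2 * u) ^ (s + 1)) ^ (r + 2) :=
        pow_le_pow_left₀ (by positivity) (mul_le_mul_of_nonneg_left h4 hN0.le) _
      refine h5.trans (le_of_eq ?_)
      rw [hW, mul_pow, ← pow_mul, mul_pow, mul_comm (s + 1) (r + 2)]
      ring
    calc (M : ℝ) ^ (s + 1) * (t * (n * (K : ℝ) ^ (s + 1)) ^ (r + 2))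
        ≤ ((r + 3) * W) ^ (s + 1) * (t * (2 ^ ((r + 2) * (s + 1)) * W)) := by
          refine mul_le_mul h2 ?_ (by positivity) (by positivity)
          exact mul_le_mul_of_nonneg_left h3 (Nat.cast_nonneg t)
      _ = (((r : ℝ) + 3) ^ (s + 1) * t * 2 ^ ((r + 2) * (s + 1))) * W ^ (s + 2) := by
          rw [mul_pow ((r : ℝ) + 3) W (s + 1)]
          ring
      _ ≤ C1 * W ^ (s + 2) := by
          refine mul_le_mul_of_nonneg_right ?_ (by positivity)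
          rw [hC1]; linarith
      _ ≤ C1 ^ (s + 2) * W ^ (s + 2) := by
          refine mul_le_mul_of_nonneg_right ?_ (by positivity)
          exact le_self_pow₀ hC1' (by omega)
      _ = (C1 * W) ^ (s + 2) := (mul_pow C1 W (s + 2)).symm
  have hI1 : (I : ℝ) ≤ C2 * W := by
    have h1 : (I : ℝ) ≤ ((I - (s + 1) * M : ℕ) : ℝ) + (s + 1) * M := by
      have : I ≤ (I - (s + 1) * M) + (s + 1) * M := by omega
      exact_mod_cast this
    have h2 : ((s : ℝ) + 1) * M ≤ (s + 1) * ((r + 3) * W) :=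
      mul_le_mul_of_nonneg_left hM1 (by positivity)
    rw [hC2, add_mul]
    calc (I : ℝ) ≤ ((I - (s + 1) * M : ℕ) : ℝ) + (s + 1) * M := h1
      _ ≤ C1 * W + (s + 1) * ((r + 3) * W) := add_le_add hJ h2
      _ = _ := by rw [mul_assoc]
  -- the final estimate
  have hh1 : (h : ℝ) ^ (r + 2) ≤ C2 * B ^ (r + 2) +
      2 * ((r : ℝ) + 2) ^ 2 * (u * (n : ℝ) ^ (2 * r + 1)) * h := by
    have h1 : (h : ℝ) ^ (r + 2) ≤
        (n : ℝ) ^ (r + 1) * (I + (r + 2) * (r + 2) * (h * (K * (n : ℝ) ^ r))) := by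
      exact_mod_cast hh
    refine h1.trans ?_
    rw [mul_add]
    refine add_le_add ?_ ?_
    · rw [← hNW]
      calc (n : ℝ) ^ (r + 1) * I ≤ (n : ℝ) ^ (r + 1) * (C2 * W) :=
            mul_le_mul_of_nonneg_left hI1 (by positivity)
        _ = _ := by ring
    · calc (n : ℝ) ^ (r + 1) * ((r + 2) * (r + 2) * (h * (K * (n : ℝ) ^ r)))
          = (((r : ℝ) + 2) ^ 2 * (n : ℝ) ^ (2 * r + 1) * h) * K := by ring
        _ ≤ (((r : ℝ) + 2) ^ 2 * (n : ℝ) ^ (2 * r + 1) * h) * (2 * u) :=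
            mul_le_mul_of_nonneg_left hK4 (by positivity)
        _ = _ := by ring
  have hB2 : u * (n : ℝ) ^ (2 * r + 1) ≤ B ^ (r + 1) := by
    refine le_of_pow_le_pow_left₀ (n := r + 2) (by omega) (by positivity) ?_
    have h1 : (B ^ (r + 1)) ^ (r + 2) = (B ^ (r + 2)) ^ (r + 1) := by ring
    rw [h1, hB1, mul_pow, mul_pow, ← pow_mul, ← pow_mul, ← pow_mul, mul_comm (u ^ (r + 2))]
    refine mul_le_mul ?_ ?_ (by positivity) (by positivity)
    · refine pow_le_pow_right₀ hN ?_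
      have e2 : (2 * r + 3) * (r + 1) = (2 * r + 1) * (r + 2) + 1 := by ring
      omega
    · refine pow_le_pow_right₀ hu2 ?_
      have e1 : 1 ≤ (s + 1) * (r + 1) := Nat.succ_le_of_lt (by positivity)
      calc r + 2 = (r + 2) * 1 := by ring
        _ ≤ (r + 2) * ((s + 1) * (r + 1)) := Nat.mul_le_mul_left _ e1
        _ = _ := by ring
  by_contra hcon
  push Not at hcon
  have hC30 : 0 < C3 := by linarith
  have hh2 : 0 < (h : ℝ) := lt_trans (by positivity) hcon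
  have h1 : B ^ (r + 2) ≤ B ^ (r + 1) * h := by
    rw [pow_succ B (r + 1)]
    refine mul_le_mul_of_nonneg_left ?_ (by positivity)
    linarith
  have h2 : (h : ℝ) ^ (r + 2) ≤ (C2 + 2 * ((r : ℝ) + 2) ^ 2) * (B ^ (r + 1) * h) := by
    calc (h : ℝ) ^ (r + 2) ≤ C2 * B ^ (r + 2) +
          2 * ((r : ℝ) + 2) ^ 2 * (u * (n : ℝ) ^ (2 * r + 1)) * h := hh1
      _ ≤ C2 * (B ^ (r + 1) * h) + 2 * ((r : ℝ) + 2) ^ 2 * (B ^ (r + 1)) * h := by
          refine add_le_add (mul_le_mul_of_nonneg_left h1 (by linarith)) ?_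
          refine mul_le_mul_of_nonneg_right ?_ hh0
          exact mul_le_mul_of_nonneg_left hB2 (by positivity)
      _ = _ := by ring
  have h3 : C3 * (B ^ (r + 1) * h) ≤ (h : ℝ) ^ (r + 2) := by
    have h4 : (C3 * B) ^ (r + 1) ≤ (h : ℝ) ^ (r + 1) := pow_le_pow_left₀ (by positivity) hcon.le _
    have h5 : C3 * B ^ (r + 1) ≤ (C3 * B) ^ (r + 1) := by
      rw [mul_pow]
      refine mul_le_mul_of_nonneg_right ?_ (by positivity)
      exact le_self_pow₀ hC3 (by omega)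
    calc C3 * (B ^ (r + 1) * h) = (C3 * B ^ (r + 1)) * h := by ring
      _ ≤ (h : ℝ) ^ (r + 1) * h := mul_le_mul_of_nonneg_right (h5.trans h4) hh0
      _ = _ := by ring
  have h6 : 0 < B ^ (r + 1) * (h : ℝ) := by positivity
  have h7 := le_of_mul_le_mul_right (h3.trans h2) h6
  rw [hC3d] at h7
  linarith

end Pool.Agent.T2H80.Bes
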