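import Pool.Agent.T2H80.Bes.QuotMain

set_option autoImplicit false
set_option linter.unusedSectionVars false

open Finset

namespace Pool.Agent.T2H80.Bes

/-- The calculation. -/
lemma calc3 (t : ℕ) (ht : 1 ≤ t) (n h J I M K : ℕ) (hn : 1 ≤ n)
    (hJ : J ≤ M)
    (h1 : h ^ 2 ≤ n * (I + 4 * (h * K)))
    (h2 : (I - 2 * J) ^ 3 ≤ J ^ 2 * (t * (n * K ^ 2) ^ 2)) :
    (h : ℝ) ≤ (6 + t) * (((n : ℝ) * M) ^ (1 / 2 : ℝ) +
      (n : ℝ) ^ (5 / 6 : ℝ) * (M : ℝ) ^ (1 / 3 : ℝ) * (K : ℝ) ^ (2 / 3 : ℝ) + n * K) := by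
  have hN : (1 : ℝ) ≤ n := by exact_mod_cast hn
  have hN0 : (0 : ℝ) < n := by linarith
  have ht1 : (1 : ℝ) ≤ t := by exact_mod_cast ht
  have hM0 : (0 : ℝ) ≤ M := Nat.cast_nonneg M
  have hK0 : (0 : ℝ) ≤ K := Nat.cast_nonneg K
  set a : ℝ := ((n : ℝ) * M) ^ (1 / 2 : ℝ) with ha
  set b : ℝ := (n : ℝ) ^ (5 / 6 : ℝ) * (M : ℝ) ^ (1 / 3 : ℝ) * (K : ℝ) ^ (2 / 3 : ℝ) with hb
  have ha0 : 0 ≤ a := by positivity
  have hb0 : 0 ≤ b := by positivity
  have ha2 : a ^ 2 = n * M := by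
    rw [ha, ← Real.rpow_natCast, ← Real.rpow_mul (by positivity)]
    norm_num
  have hb6 : (b ^ 2) ^ 3 = (n : ℝ) ^ 3 * ((M : ℝ) ^ 2 * (n * (K : ℝ) ^ 2) ^ 2) := by
    rw [← pow_mul, hb, mul_pow, mul_pow, ← Real.rpow_natCast ((n : ℝ) ^ (5 / 6 : ℝ)),
      ← Real.rpow_mul hN0.le, ← Real.rpow_natCast ((M : ℝ) ^ (1 / 3 : ℝ)),
      ← Real.rpow_mul hM0, ← Real.rpow_natCast ((K : ℝ) ^ (2 / 3 : ℝ)), ← Real.rpow_mul hK0]
    norm_num
    ring
  have hJ1 : (n : ℝ) * ((I - 2 * J : ℕ) : ℝ) ≤ t * b ^ 2 := by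
    refine le_of_pow_le_pow_left₀ (n := 3) (by norm_num) (by positivity) ?_
    have h3 : ((I - 2 * J : ℕ) : ℝ) ^ 3 ≤ (J : ℝ) ^ 2 * (t * (n * (K : ℝ) ^ 2) ^ 2) := by
      exact_mod_cast h2
    have h4 : (J : ℝ) ^ 2 ≤ (M : ℝ) ^ 2 := pow_le_pow_left₀ (Nat.cast_nonneg _) (by exact_mod_cast hJ) 2
    calc ((n : ℝ) * ((I - 2 * J : ℕ) : ℝ)) ^ 3 = (n : ℝ) ^ 3 * ((I - 2 * J : ℕ) : ℝ) ^ 3 := by ring
      _ ≤ (n : ℝ) ^ 3 * ((J : ℝ) ^ 2 * (t * (n * (K : ℝ) ^ 2) ^ 2)) :=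
          mul_le_mul_of_nonneg_left h3 (by positivity)
      _ ≤ (n : ℝ) ^ 3 * ((M : ℝ) ^ 2 * (t * (n * (K : ℝ) ^ 2) ^ 2)) := by
          refine mul_le_mul_of_nonneg_left ?_ (by positivity)
          exact mul_le_mul_of_nonneg_right h4 (by positivity)
      _ = t * (b ^ 2) ^ 3 := by rw [hb6]; ring
      _ ≤ (t : ℝ) ^ 3 * (b ^ 2) ^ 3 := by
          refine mul_le_mul_of_nonneg_right ?_ (by positivity)
          exact le_self_pow₀ ht1 (by norm_num)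
      _ = (t * b ^ 2) ^ 3 := by ring
  have hI : (n : ℝ) * I ≤ t * b ^ 2 + 2 * a ^ 2 := by
    have h3 : (I : ℝ) ≤ ((I - 2 * J : ℕ) : ℝ) + 2 * M := by
      have : I ≤ (I - 2 * J) + 2 * M := by omega
      exact_mod_cast this
    calc (n : ℝ) * I ≤ n * (((I - 2 * J : ℕ) : ℝ) + 2 * M) := mul_le_mul_of_nonneg_left h3 hN0.le
      _ = n * ((I - 2 * J : ℕ) : ℝ) + 2 * (n * M) := by ring
      _ ≤ _ := by rw [ha2]; linarith
  have h3 : (h : ℝ) ^ 2 ≤ n * (I + 4 * (h * K)) := by exact_mod_cast h1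
  have hh0 : (0 : ℝ) ≤ h := Nat.cast_nonneg h
  have hnK : (0 : ℝ) ≤ n * K := by positivity
  set c : ℝ := n * K with hc
  have h4 : (h : ℝ) ^ 2 ≤ t * b ^ 2 + 2 * a ^ 2 + 4 * (c * h) := by
    have h5 : (n : ℝ) * (I + 4 * (h * K)) = n * I + 4 * (c * h) := by rw [hc]; ring
    rw [h5] at h3
    linarith
  obtain ⟨S, hS⟩ : ∃ S, S = a + b + c := ⟨_, rfl⟩
  rw [← hS]
  have hS0 : 0 ≤ S := by rw [hS]; positivity
  have haS : a ≤ S := by rw [hS]; linarith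
  have hbS : b ≤ S := by rw [hS]; linarith
  have hcS : c ≤ S := by rw [hS]; linarith
  have h5 : (h : ℝ) ^ 2 ≤ t * S ^ 2 + 2 * S ^ 2 + 4 * (S * h) := by
    refine h4.trans ?_
    refine add_le_add (add_le_add ?_ ?_) ?_
    · exact mul_le_mul_of_nonneg_left (pow_le_pow_left₀ hb0 hbS 2) (by linarith)
    · exact mul_le_mul_of_nonneg_left (pow_le_pow_left₀ ha0 haS 2) (by norm_num)
    · exact mul_le_mul_of_nonneg_left (mul_le_mul_of_nonneg_right hcS hh0) (by norm_num)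
  by_contra hcon
  push Not at hcon
  have h12 : 0 < (h : ℝ) := lt_of_le_of_lt (by positivity) hcon
  have h6 : (6 + (t : ℝ)) * S ^ 2 ≤ S * h := by
    calc (6 + (t : ℝ)) * S ^ 2 = S * ((6 + t) * S) := by ring
      _ ≤ S * h := mul_le_mul_of_nonneg_left hcon.le hS0
  have h7 : (h : ℝ) * h ≤ (5 * S) * h := by
    have h8 : 0 ≤ S ^ 2 := by positivity
    nlinarith
  have h8 := le_of_mul_le_mul_right h7 h12
  have h9 : (6 + (t : ℝ)) * S = 5 * S + (S + t * S) := by ring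
  have h10 : 0 ≤ (t : ℝ) * S := by positivity
  rw [h9] at hcon
  linarith

/-- Incompressible columns. -/
theorem coarse (k : ℕ) (hk : k = 21 ∨ 25 ≤ k) : ∃ C : ℝ, 0 < C ∧
    ∀ (V : Type) [Fintype V] [DecidableEq V] (x y z : Finset V → V) (H : Finset (Finset V))
      (p : V → ℕ) (K M : ℕ),
      (∀ e ∈ H, e.card = 3 ∧ e = {x e, y e, z e}) →
      (∀ S : Finset V, S.card = k → #{e ∈ H | e ⊆ S} < k - 3) →
      (∀ v, #{w | p w = p v} ≤ K) →
      M = #(({q ∈ H ×ˢ H | z q.1 = z q.2}).image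
        (fun q => ((y q.1, y q.2), (p (x q.1), p (x q.2))))) →
      (#H : ℝ) ≤ C * (((Fintype.card V : ℝ) * M) ^ (1 / 2 : ℝ) +
        (Fintype.card V : ℝ) ^ (5 / 6 : ℝ) * (M : ℝ) ^ (1 / 3 : ℝ) * (K : ℝ) ^ (2 / 3 : ℝ) +
        Fintype.card V * K) := by
  classical
  obtain ⟨s, rfl⟩ : ∃ s, k = s + 3 := ⟨k - 3, by omega⟩
  have hs : s = 18 ∨ 22 ≤ s := by omega
  have hs1 : 1 ≤ s := by omega
  refine ⟨(s + 3 : ℝ) ^ 3 + 3 * s * (6 + s), by positivity, ?_⟩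
  intro V _ _ x y z H p K M h3 hfree hK hM
  obtain ⟨n, hn⟩ : ∃ n, n = Fintype.card V := ⟨_, rfl⟩
  rw [← hn]
  rcases H.eq_empty_or_nonempty with rfl | hH
  · rw [card_empty, Nat.cast_zero]
    positivity
  obtain ⟨e0, he0⟩ := hH
  have hn1 : 1 ≤ n := by
    rw [hn, Nat.succ_le_iff, Fintype.card_pos_iff]
    exact ⟨x e0⟩
  have hN : (1 : ℝ) ≤ n := by exact_mod_cast hn1
  have hM1 : 1 ≤ M := by
    rw [hM, Nat.succ_le_iff, card_pos]
    refine ⟨_, mem_image_of_mem _ (a := (e0, e0)) ?_⟩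
    rw [mem_filter, mem_product]
    exact ⟨⟨he0, he0⟩, rfl⟩
  have hMr : (1 : ℝ) ≤ M := by exact_mod_cast hM1
  have hb1 : (1 : ℝ) ≤ ((n : ℝ) * M) ^ (1 / 2 : ℝ) :=
    Real.one_le_rpow (by nlinarith) (by norm_num)
  have hb2 : (0 : ℝ) ≤ (n : ℝ) ^ (5 / 6 : ℝ) * (M : ℝ) ^ (1 / 3 : ℝ) * (K : ℝ) ^ (2 / 3 : ℝ) +
      n * K := by positivity
  have hb3 : (1 : ℝ) ≤ ((n : ℝ) * M) ^ (1 / 2 : ℝ) + (n : ℝ) ^ (5 / 6 : ℝ) * (M : ℝ) ^ (1 / 3 : ℝ) *
      (K : ℝ) ^ (2 / 3 : ℝ) + n * K := by linarith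
  rcases lt_or_ge n (s + 3) with hns | hns
  · -- few vertices
    have h1 : #H ≤ n ^ 3 := by
      calc #H ≤ #((univ : Finset V).powersetCard 3) := by
            refine card_le_card fun e he => ?_
            rw [mem_powersetCard]
            exact ⟨subset_univ _, (h3 e he).1⟩
        _ = n.choose 3 := by rw [card_powersetCard, card_univ, hn]
        _ ≤ n ^ 3 := Nat.choose_le_pow _ _
    have h2 : (#H : ℝ) ≤ (s + 3 : ℝ) ^ 3 := by
      have h4 : (#H : ℝ) ≤ (n : ℝ) ^ 3 := by exact_mod_cast h1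
      refine h4.trans (pow_le_pow_left₀ (by positivity) ?_ _)
      exact_mod_cast hns.le
    have h5 : (0 : ℝ) ≤ 3 * s * (6 + s) := by positivity
    calc (#H : ℝ) ≤ ((s + 3 : ℝ) ^ 3 + 3 * s * (6 + s)) * 1 := by linarith
      _ ≤ _ := mul_le_mul_of_nonneg_left hb3 (by positivity)
  · -- the sparsity condition for sets of edges
    have hsp : ∀ T ⊆ H, T.card = s → s + 3 < (T.biUnion id).card := by
      intro T hT hTc
      by_contra hcon
      push Not at hcon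
      obtain ⟨S, hS1, hS2⟩ := exists_superset_card_eq hcon (hn ▸ hns)
      have h1 := hfree S hS2
      have h2 : T ⊆ {e ∈ H | e ⊆ S} := by
        intro e he
        rw [mem_filter]
        refine ⟨hT he, ?_⟩
        exact (subset_biUnion_of_mem id he).trans hS1
      have h3 := card_le_card h2
      omega
    obtain ⟨H', hH', hlin', hcard⟩ := exists_linear H (fun e he => (h3 e he).1) hsp
    have hL := lin_of H' x y z (fun e he => h3 e (hH' he)) hlin'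
    have hG : ¬ Grid H' x y z 2 3 s := by
      intro hG
      obtain ⟨T, hT, hTc, hTs⟩ := grid_sub hs H' x y z (fun e he => (h3 e (hH' he)).2) hG
      have := hsp T (hT.trans hH') hTc
      omega
    have hc := count (π := y) (p := p) (s := 2) (r := 2) hL (fun _ _ _ _ h => h) hK hG
    have hl := inc_lower (p := p) (n := n) (r := 0) hL hn.ge hn.ge hK
    have hJM : Meet H' x z y p 2 ≤ M := by
      rw [hM]
      unfold Meet
      refine Finset.card_le_card_of_injOn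
        (fun a => ((a.1 0, a.1 1), (a.2 0, a.2 1))) ?_ ?_
      · intro a ha
        rw [mem_coe, mem_image] at ha
        obtain ⟨f, hf, rfl⟩ := ha
        rw [mem_Inc] at hf
        rw [mem_coe, mem_image]
        refine ⟨(f 0, f 1), ?_, rfl⟩
        rw [mem_filter, mem_product]
        exact ⟨⟨hH' (hf.1 0), hH' (hf.1 1)⟩, hf.2.1 0 1⟩
      · intro a _ b _ h
        simp only [Prod.mk.injEq] at h
        refine Prod.ext ?_ ?_
        · funext i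
          fin_cases i
          · exact h.1.1
          · exact h.1.2
        · funext i
          fin_cases i
          · exact h.2.1
          · exact h.2.2
    have hmain := calc3 s hs1 n #H' (Meet H' x z y p 2) #(Inc H' x z p 2) M K hn1 hJM
      (by simpa using hl) (by rw [← hn] at hc; exact hc)
    have h1 : (#H : ℝ) ≤ 3 * s * #H' := by exact_mod_cast hcard
    calc (#H : ℝ) ≤ 3 * s * #H' := h1
      _ ≤ 3 * s * ((6 + s) * (((n : ℝ) * M) ^ (1 / 2 : ℝ) +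
          (n : ℝ) ^ (5 / 6 : ℝ) * (M : ℝ) ^ (1 / 3 : ℝ) * (K : ℝ) ^ (2 / 3 : ℝ) + n * K)) :=
          mul_le_mul_of_nonneg_left hmain (by positivity)
      _ ≤ _ := by
          have h5 : 0 ≤ (s + 3 : ℝ) ^ 3 * (((n : ℝ) * M) ^ (1 / 2 : ℝ) +
            (n : ℝ) ^ (5 / 6 : ℝ) * (M : ℝ) ^ (1 / 3 : ℝ) * (K : ℝ) ^ (2 / 3 : ℝ) + n * K) := by
            positivity
          linarith

end Pool.Agent.T2H80.Bes
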