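import Mathlib

set_option autoImplicit false

open Finset

namespace Pool.Agent.T2H80.Bes

/-- The number of injective tuples. -/
lemma card_inj {β : Type*} [DecidableEq β] (D : Finset β) (s : ℕ) :
    #{F ∈ Fintype.piFinset (fun _ : Fin s => D) | Function.Injective F} = (#D).descFactorial s := by
  classical
  have h := Fintype.card_embedding_eq (α := Fin s) (β := {b // b ∈ D})
  rw [Fintype.card_fin, Fintype.card_coe] at h
  rw [← h, ← Finset.card_univ]
  symm
  refine Finset.card_bij (fun F _ => fun k => (F k).1) ?_ ?_ ?_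
  · intro F _
    simp only [mem_filter, Fintype.mem_piFinset]
    exact ⟨fun k => (F k).2, fun a b hab => F.injective (Subtype.ext hab)⟩
  · intro F _ G _ hFG
    ext k
    exact congrFun hFG k
  · intro F hF
    simp only [mem_filter, Fintype.mem_piFinset] at hF
    refine ⟨⟨fun k => ⟨F k, hF.1 k⟩, ?_⟩, mem_univ _, rfl⟩
    intro a b hab
    exact hF.2 (congrArg Subtype.val hab)

/-- Tuples of points in a common class. -/
lemma card_same {X : Type*} [Fintype X] [DecidableEq X] (p : X → ℕ) (K : ℕ)
    (hK : ∀ a, #{b | p b = p a} ≤ K) (s : ℕ) :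
    #{u : Fin (s + 1) → X | ∀ k k', p (u k) = p (u k')} ≤ Fintype.card X * K ^ s := by
  classical
  have h1 : #{u : Fin (s + 1) → X | ∀ k k', p (u k) = p (u k')} ≤
      #((univ : Finset X).sigma (fun a => Fintype.piFinset (fun _ : Fin s => {b : X | p b = p a}))) := by
    refine Finset.card_le_card_of_injOn (fun u => ⟨u 0, fun k => u k.succ⟩) ?_ ?_
    · intro u hu
      simp only [coe_filter, mem_univ, true_and, Set.mem_ofPred_eq] at hu
      simp only [coe_sigma, Set.mem_sigma_iff, mem_coe, mem_univ, Fintype.mem_piFinset, mem_filter,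
        true_and]
      intro k
      exact hu _ _
    · intro u _ v _ huv
      simp only [Sigma.mk.injEq, heq_eq_eq] at huv
      funext k
      refine Fin.cases huv.1 (fun k => congrFun huv.2 k) k
  refine h1.trans ?_
  rw [card_sigma]
  calc ∑ a : X, #(Fintype.piFinset fun _ : Fin s => ({b : X | p b = p a} : Finset X))
      ≤ ∑ _a : X, K ^ s := by
        refine sum_le_sum fun a _ => ?_
        rw [Fintype.card_piFinset_const]
        exact Nat.pow_le_pow_left (hK a) s
    _ = Fintype.card X * K ^ s := by simp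

lemma card_same2 {X : Type*} [Fintype X] [DecidableEq X] (p : X → ℕ) (K : ℕ)
    (hK : ∀ a, #{b | p b = p a} ≤ K) (r s : ℕ) :
    #{u : Fin (s + 1) → Fin r → X | ∀ k k' i, p (u k i) = p (u k' i)} ≤
      (Fintype.card X * K ^ s) ^ r := by
  classical
  have h1 : #{u : Fin (s + 1) → Fin r → X | ∀ k k' i, p (u k i) = p (u k' i)} ≤
      #(Fintype.piFinset (fun _ : Fin r =>
        ({u : Fin (s + 1) → X | ∀ k k', p (u k) = p (u k')} : Finset _))) := by
    refine Finset.card_le_card_of_injOn (fun u => fun i k => u k i) ?_ ?_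
    · intro u hu
      simp only [coe_filter, mem_univ, true_and, Set.mem_ofPred_eq] at hu
      simp only [mem_coe, Fintype.mem_piFinset, mem_filter, mem_univ, true_and]
      intro i k k'
      exact hu k k' i
    · intro u _ v _ huv
      funext k i
      exact congrFun (congrFun huv i) k
  refine h1.trans ?_
  rw [Fintype.card_piFinset_const]
  exact Nat.pow_le_pow_left (card_same p K hK s) r

/-- Power mean inequality for truncated natural numbers. -/
lemma power_mean {ι : Type*} (A : Finset ι) (d : ι → ℕ) (q s : ℕ) :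
    (∑ a ∈ A, d a - q * #A) ^ (s + 1) ≤ #A ^ s * ∑ a ∈ A, (d a - q) ^ (s + 1) := by
  have h1 : ∑ a ∈ A, d a - q * #A ≤ ∑ a ∈ A, (d a - q) := by
    have : ∑ a ∈ A, d a ≤ ∑ a ∈ A, (d a - q) + q * #A := by
      have h2 : q * #A = ∑ _a ∈ A, q := by simp [mul_comm]
      rw [h2, ← sum_add_distrib]
      exact sum_le_sum fun a _ => by omega
    omega
  refine (Nat.pow_le_pow_left h1 _).trans ?_
  have h3 := pow_sum_div_card_le_sum_pow (s := A) (f := fun a => ((d a - q : ℕ) : ℝ))
    (fun i _ => by positivity) s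
  rcases A.eq_empty_or_nonempty with rfl | hA
  · simp
  have h4 : (0 : ℝ) < (#A : ℝ) ^ s := by
    have := hA.card_pos
    positivity
  rw [div_le_iff₀ h4] at h3
  have h5 : ((((∑ a ∈ A, (d a - q)) ^ (s + 1) : ℕ)) : ℝ) ≤
      ((#A ^ s * ∑ a ∈ A, (d a - q) ^ (s + 1) : ℕ) : ℝ) := by
    push_cast
    linarith
  exact_mod_cast h5


/-- A grid of `r * s * t` different elements of `H`: the first coordinate does not depend on the
third index, the second coordinate not on the second index, the third coordinate not on the first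
index. -/
def Grid {E X Y Z : Type*} (H : Finset E) (x : E → X) (y : E → Y) (z : E → Z) (r s t : ℕ) :
    Prop :=
  ∃ G : Fin r → Fin s → Fin t → E,
    (∀ i k j, G i k j ∈ H) ∧ (∀ i k j j', x (G i k j) = x (G i k j')) ∧
    (∀ i k k' j, y (G i k j) = y (G i k' j)) ∧ (∀ i i' k j, z (G i k j) = z (G i' k j)) ∧
    (∀ i k j i' k' j', G i k j = G i' k' j' → i = i' ∧ k = k' ∧ j = j')

/-- Two of the three coordinates determine an element of `H`. -/
structure Lin {E X Y Z : Type*} (H : Finset E) (x : E → X) (y : E → Y) (z : E → Z) : Prop where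
  xy : ∀ e ∈ H, ∀ f ∈ H, x e = x f → y e = y f → e = f
  yz : ∀ e ∈ H, ∀ f ∈ H, y e = y f → z e = z f → e = f
  xz : ∀ e ∈ H, ∀ f ∈ H, x e = x f → z e = z f → e = f

section

variable {E X Y Z P : Type*} [DecidableEq E] [DecidableEq X] [DecidableEq Y] [DecidableEq Z]
  [DecidableEq P] (H : Finset E) (x : E → X) (y : E → Y) (z : E → Z) (π : E → P) (p : X → ℕ)

/-- Tuples of elements of `H` with a common third coordinate and first coordinates in different
classes. -/
def Inc (r : ℕ) : Finset (Fin r → E) :=
  {f ∈ Fintype.piFinset (fun _ : Fin r => H) |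
    (∀ i j, z (f i) = z (f j)) ∧ Function.Injective (fun i => p (x (f i)))}

/-- The pieces and the classes of a tuple. -/
def key (r : ℕ) (f : Fin r → E) : (Fin r → P) × (Fin r → ℕ) :=
  (fun i => π (f i), fun i => p (x (f i)))

/-- The number of pairs (curve, cell) that meet. -/
def Meet (r : ℕ) : ℕ := #((Inc H x z p r).image (key x π p r))

variable {H x y z π p}

lemma mem_Inc {r : ℕ} {f : Fin r → E} : f ∈ Inc H x z p r ↔
    (∀ i, f i ∈ H) ∧ (∀ i j, z (f i) = z (f j)) ∧ Function.Injective (fun i => p (x (f i))) := by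
  simp [Inc, Fintype.mem_piFinset]

/-- `t` different families of `s` tuples with the same points form a grid. -/
lemma grid_of {r s t : ℕ} (hL : Lin H x y z)
    (hπ : ∀ e ∈ H, ∀ f ∈ H, π e = π f → y e = y f)
    (Fs : Fin t → Fin s → Fin r → E) (hinj : Function.Injective Fs)
    (hmem : ∀ j k, Fs j k ∈ Inc H x z p r) (hk : ∀ j, Function.Injective (Fs j))
    (hkey : ∀ j k k', key x π p r (Fs j k) = key x π p r (Fs j k'))
    (hx : ∀ j j' k i, x (Fs j k i) = x (Fs j' k i)) : Grid H x y z r s t := by
  classical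
  have hm := fun j k => mem_Inc.1 (hmem j k)
  have hp : ∀ j k k' i, π (Fs j k i) = π (Fs j k' i) := fun j k k' i =>
    congrFun (congrArg Prod.fst (hkey j k k')) i
  have hc : ∀ j k k' i, p (x (Fs j k i)) = p (x (Fs j k' i)) := fun j k k' i =>
    congrFun (congrArg Prod.snd (hkey j k k')) i
  have hy : ∀ j k k' i, y (Fs j k i) = y (Fs j k' i) := fun j k k' i =>
    hπ _ ((hm j k).1 i) _ ((hm j k').1 i) (hp j k k' i)
  refine ⟨fun i k j => Fs j k i, fun i k j => (hm j k).1 i, fun i k j j' => hx j j' k i,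
    fun i k k' j => hy j k k' i, fun i i' k j => (hm j k).2.1 i i', ?_⟩
  intro i k j i' k' j' he
  simp only at he
  -- the strands
  have hi : i = i' := by
    have h1 : p (x (Fs j k i)) = p (x (Fs j k i')) := by
      rw [he, hx j' j k' i', hc j k' k i']
    exact (hm j k).2.2 h1
  subst hi
  -- the points
  have hkk : k = k' := by
    have h1 : x (Fs j k i) = x (Fs j k' i) := by rw [he, hx j' j k' i]
    have h2 : Fs j k i = Fs j k' i := hL.xy _ ((hm j k).1 i) _ ((hm j k').1 i) h1 (hy j k k' i)
    apply hk j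
    funext i''
    refine hL.yz _ ((hm j k).1 i'') _ ((hm j k').1 i'') (hy j k k' i'') ?_
    rw [(hm j k).2.1 i'' i, h2, (hm j k').2.1 i i'']
  subst hkk
  refine ⟨rfl, rfl, ?_⟩
  have h3 : Fs j k = Fs j' k := by
    funext i''
    refine hL.xz _ ((hm j k).1 i'') _ ((hm j' k).1 i'') (hx j j' k i'') ?_
    rw [(hm j k).2.1 i'' i, he, (hm j' k).2.1 i i'']
  apply hinj
  funext k'' i''
  refine hL.xy _ ((hm j k'').1 i'') _ ((hm j' k'').1 i'') (hx j j' k'' i'') ?_
  rw [hy j k'' k i'', h3, hy j' k k'' i'']

/-- The main counting lemma. -/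
lemma count [Fintype X] {r s t K : ℕ} (hL : Lin H x y z)
    (hπ : ∀ e ∈ H, ∀ f ∈ H, π e = π f → y e = y f)
    (hK : ∀ a, #{b | p b = p a} ≤ K) (hG : ¬ Grid H x y z r (s + 1) t) :
    (#(Inc H x z p r) - s * Meet H x z π p r) ^ (s + 1) ≤
      Meet H x z π p r ^ s * (t * (Fintype.card X * K ^ s) ^ r) := by
  classical
  set A := (Inc H x z p r).image (key x π p r) with hA
  set D : (Fin r → P) × (Fin r → ℕ) → Finset (Fin r → E) := fun a =>
    {f ∈ Inc H x z p r | key x π p r f = a} with hD
  have hsum : #(Inc H x z p r) = ∑ a ∈ A, #(D a) :=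
    card_eq_sum_card_image (key x π p r) (Inc H x z p r)
  have h1 := power_mean A (fun a => #(D a)) s s
  rw [← hsum] at h1
  refine h1.trans (Nat.mul_le_mul_left _ ?_)
  -- injective families
  set S : Finset (Fin (s + 1) → Fin r → E) := A.biUnion fun a =>
    {F ∈ Fintype.piFinset (fun _ : Fin (s + 1) => D a) | Function.Injective F} with hS
  have h2 : ∑ a ∈ A, (#(D a) - s) ^ (s + 1) ≤ #S := by
    rw [hS, card_biUnion]
    · refine sum_le_sum fun a _ => ?_
      rw [card_inj]
      have := Nat.pow_sub_le_descFactorial (#(D a)) (s + 1)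
      rwa [Nat.add_sub_add_right] at this
    · intro a _ b _ hab
      rw [Function.onFun, disjoint_left]
      intro F hF hF'
      simp only [mem_filter, Fintype.mem_piFinset, hD] at hF hF'
      exact hab ((hF.1 0).2.symm.trans (hF'.1 0).2)
  refine h2.trans ?_
  set W : Finset (Fin (s + 1) → Fin r → X) := {u | ∀ k k' i, p (u k i) = p (u k' i)} with hW
  have hmemS : ∀ F ∈ S, (∀ k, F k ∈ Inc H x z p r) ∧ Function.Injective F ∧
      ∀ k k', key x π p r (F k) = key x π p r (F k') := by
    intro F hF
    simp only [hS, mem_biUnion, mem_filter, Fintype.mem_piFinset, hD] at hF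
    obtain ⟨a, _, h3, h4⟩ := hF
    exact ⟨fun k => (h3 k).1, h4, fun k k' => (h3 k).2.trans (h3 k').2.symm⟩
  have h5 : #S ≤ t * #W := by
    refine card_le_mul_card_image_of_maps_to (f := fun F => fun k i => x (F k i)) ?_ t ?_
    · intro F hF
      obtain ⟨_, _, h4⟩ := hmemS F hF
      simp only [hW, mem_filter, mem_univ, true_and]
      intro k k' i
      exact congrFun (congrArg Prod.snd (h4 k k')) i
    · intro u _
      by_contra hcon
      push Not at hcon
      have h6 : t ≤ #{F ∈ S | (fun k i => x (F k i)) = u} := hcon.le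
      obtain ⟨S', hS', hcard⟩ := exists_subset_card_eq h6
      have e := (S'.equivFinOfCardEq hcard).symm
      apply hG
      have h7 : ∀ j, (e j).1 ∈ S ∧ (fun k i => x ((e j).1 k i)) = u := fun j =>
        mem_filter.1 (hS' (e j).2)
      refine grid_of (π := π) (p := p) hL hπ (fun j => (e j).1) ?_ ?_ ?_ ?_ ?_
      · intro j j' h
        exact e.injective (Subtype.ext h)
      · intro j k
        exact (hmemS _ (h7 j).1).1 k
      · intro j
        exact (hmemS _ (h7 j).1).2.1
      · intro j
        exact (hmemS _ (h7 j).1).2.2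
      · intro j j' k i
        have h8 := (h7 j).2.trans (h7 j').2.symm
        exact congrFun (congrFun h8 k) i
  refine h5.trans (Nat.mul_le_mul_left _ ?_)
  exact card_same2 p K hK r s

end

end Pool.Agent.T2H80.Bes
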