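import Pool.Agent.T2H80.Bes.Mono
import Pool.Agent.T2H80.Bes.Calc

set_option autoImplicit false
set_option linter.unusedSectionVars false

open Finset

namespace Pool.Agent.T2H80.Bes

section graph

variable {V : Type} [Fintype V] [DecidableEq V]

lemma mem_edge {H : Finset (Finset V)} {x y z : Finset V → V}
    (h3 : ∀ e ∈ H, e = {x e, y e, z e}) {e : Finset V} (he : e ∈ H) (v : V) :
    v ∈ e ↔ v = x e ∨ v = y e ∨ v = z e := by
  have h2 := h3 e he
  have h4 : v ∈ e ↔ v ∈ ({x e, y e, z e} : Finset V) := by rw [← h2]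
  rw [h4, mem_insert, mem_insert, mem_singleton]

lemma card_codeg {s : ℕ} (H : Finset (Finset V)) (h3 : ∀ e ∈ H, e.card = 3)
    (hsp : ∀ T ⊆ H, T.card = s → s + 3 < (T.biUnion id).card) (q : Finset V) (hq : q.card = 2) :
    #{e ∈ H | q ⊆ e} < s := by
  by_contra hcon
  push Not at hcon
  obtain ⟨T, hT, hTc⟩ := exists_subset_card_eq hcon
  have h1 := hsp T (hT.trans (filter_subset _ _)) hTc
  have h2 : T.biUnion id ⊆ q ∪ T.biUnion (fun e => e \ q) := by
    intro v hv
    rw [mem_biUnion] at hv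
    obtain ⟨e, he, hve⟩ := hv
    rw [mem_union, mem_biUnion]
    by_cases hvq : v ∈ q
    · exact Or.inl hvq
    · exact Or.inr ⟨e, he, mem_sdiff.2 ⟨hve, hvq⟩⟩
  have h3' : (T.biUnion (fun e => e \ q)).card ≤ s := by
    refine card_biUnion_le.trans ?_
    calc ∑ e ∈ T, (e \ q).card ≤ ∑ _e ∈ T, 1 := by
          refine sum_le_sum fun e he => ?_
          have h4 := mem_filter.1 (hT he)
          have h5 := card_sdiff_of_subset h4.2
          rw [h5, h3 e h4.1, hq]
      _ = s := by simp [hTc]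
  have h4 := (card_le_card h2).trans (card_union_le _ _)
  omega

lemma exists_linear {s : ℕ} (H : Finset (Finset V)) (h3 : ∀ e ∈ H, e.card = 3)
    (hsp : ∀ T ⊆ H, T.card = s → s + 3 < (T.biUnion id).card) :
    ∃ H' ⊆ H, (∀ e ∈ H', ∀ f ∈ H', e ≠ f → (e ∩ f).card ≤ 1) ∧ #H ≤ 3 * s * #H' := by
  classical
  obtain ⟨H', hH', hmax⟩ := exists_max_image (H.powerset.filter fun A =>
    ∀ e ∈ A, ∀ f ∈ A, e ≠ f → (e ∩ f).card ≤ 1) card ⟨∅, by simp⟩
  rw [mem_filter, mem_powerset] at hH'
  refine ⟨H', hH'.1, hH'.2, ?_⟩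
  have h1 : H ⊆ H'.biUnion fun f => {e ∈ H | 2 ≤ (e ∩ f).card} := by
    intro e he
    rw [mem_biUnion]
    by_contra hcon
    push Not at hcon
    have h2 : ∀ f ∈ H', (e ∩ f).card ≤ 1 := by
      intro f hf
      by_contra h
      exact hcon f hf (mem_filter.2 ⟨he, by omega⟩)
    have he' : e ∉ H' := by
      intro h
      have := h2 e h
      rw [inter_self, h3 e he] at this
      omega
    have h4 := hmax (insert e H') (by
      rw [mem_filter, mem_powerset]
      refine ⟨insert_subset he hH'.1, ?_⟩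
      intro a ha b hb hab
      rw [mem_insert] at ha hb
      rcases ha with rfl | ha <;> rcases hb with rfl | hb
      · exact absurd rfl hab
      · exact h2 b hb
      · rw [inter_comm]; exact h2 a ha
      · exact hH'.2 a ha b hb hab)
    rw [card_insert_of_notMem he'] at h4
    omega
  refine (card_le_card h1).trans (card_biUnion_le.trans ?_)
  calc ∑ f ∈ H', #{e ∈ H | 2 ≤ (e ∩ f).card} ≤ ∑ _f ∈ H', 3 * s := by
        refine sum_le_sum fun f hf => ?_
        have h2 : {e ∈ H | 2 ≤ (e ∩ f).card} ⊆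
            (f.powersetCard 2).biUnion fun q => {e ∈ H | q ⊆ e} := by
          intro e he
          rw [mem_filter] at he
          obtain ⟨q, hq, hqc⟩ := exists_subset_card_eq he.2
          rw [mem_biUnion]
          refine ⟨q, ?_, ?_⟩
          · rw [mem_powersetCard]
            exact ⟨hq.trans inter_subset_right, hqc⟩
          · rw [mem_filter]
            exact ⟨he.1, hq.trans inter_subset_left⟩
        refine (card_le_card h2).trans (card_biUnion_le.trans ?_)
        calc ∑ q ∈ f.powersetCard 2, #{e ∈ H | q ⊆ e} ≤ ∑ _q ∈ f.powersetCard 2, s := by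
              refine sum_le_sum fun q hq => ?_
              exact (card_codeg H h3 hsp q (mem_powersetCard.1 hq).2).le
          _ = 3 * s := by
              rw [sum_const, card_powersetCard, h3 f (hH'.1 hf)]
              simp [Nat.choose]
    _ = 3 * s * #H' := by rw [sum_const, smul_eq_mul, mul_comm]

/-- A linear 3-graph whose edges have names. -/
lemma lin_of (H : Finset (Finset V)) (x y z : Finset V → V)
    (h3 : ∀ e ∈ H, e.card = 3 ∧ e = {x e, y e, z e})
    (hlin : ∀ e ∈ H, ∀ f ∈ H, e ≠ f → (e ∩ f).card ≤ 1) : Lin H x y z := by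
  have hne : ∀ e ∈ H, x e ≠ y e ∧ x e ≠ z e ∧ y e ≠ z e := by
    intro e he
    obtain ⟨h1, h2⟩ := h3 e he
    have h4 : ({x e, y e, z e} : Finset V).card = 3 := by rw [← h2]; exact h1
    refine ⟨?_, ?_, ?_⟩
    · intro h
      rw [h, insert_eq_of_mem (mem_insert_self _ _)] at h4
      have := card_le_two (a := y e) (b := z e)
      omega
    · intro h
      rw [h, insert_eq_of_mem (mem_insert_of_mem (mem_singleton_self _))] at h4
      have := card_le_two (a := y e) (b := z e)
      omega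
    · intro h
      rw [h, insert_eq_of_mem (mem_singleton_self _)] at h4
      have := card_le_two (a := x e) (b := z e)
      omega
  have hmem : ∀ e ∈ H, x e ∈ e ∧ y e ∈ e ∧ z e ∈ e := by
    intro e he
    have h2 := mem_edge (fun e he => (h3 e he).2) he
    exact ⟨(h2 _).2 (Or.inl rfl), (h2 _).2 (Or.inr (Or.inl rfl)), (h2 _).2 (Or.inr (Or.inr rfl))⟩
  have key : ∀ e ∈ H, ∀ f ∈ H, ∀ a b : V, a ≠ b → a ∈ e → a ∈ f → b ∈ e → b ∈ f → e = f := by
    intro e he f hf a b hab h1 h2 h4 h5
    by_contra hef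
    have h6 := hlin e he f hf hef
    have h7 : ({a, b} : Finset V) ⊆ e ∩ f := by
      intro c hc
      rw [mem_insert, mem_singleton] at hc
      rcases hc with rfl | rfl
      · exact mem_inter.2 ⟨h1, h2⟩
      · exact mem_inter.2 ⟨h4, h5⟩
    have h8 := card_le_card h7
    rw [card_pair hab] at h8
    omega
  refine ⟨?_, ?_, ?_⟩
  · intro e he f hf h1 h2
    exact key e he f hf (x e) (y e) (hne e he).1 (hmem e he).1 (h1 ▸ (hmem f hf).1)
      (hmem e he).2.1 (h2 ▸ (hmem f hf).2.1)
  · intro e he f hf h1 h2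
    exact key e he f hf (y e) (z e) (hne e he).2.2 (hmem e he).2.1 (h1 ▸ (hmem f hf).2.1)
      (hmem e he).2.2 (h2 ▸ (hmem f hf).2.2)
  · intro e he f hf h1 h2
    exact key e he f hf (x e) (z e) (hne e he).2.1 (hmem e he).1 (h1 ▸ (hmem f hf).1)
      (hmem e he).2.2 (h2 ▸ (hmem f hf).2.2)

end graph

section grid

variable {E X Y Z : Type*} [DecidableEq E] [DecidableEq X] [DecidableEq Y] [DecidableEq Z]
  {H : Finset E} {x : E → X} {y : E → Y} {z : E → Z}

/-- The grid with natural numbers as indices. -/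
lemma grid_nat {r s t : ℕ} (hr : 1 ≤ r) (hs : 1 ≤ s) (ht : 1 ≤ t) (hG : Grid H x y z r s t) :
    ∃ G : ℕ → ℕ → ℕ → E,
    (∀ i k j, G i k j ∈ H) ∧ (∀ i k j j', x (G i k j) = x (G i k j')) ∧
    (∀ i k k' j, y (G i k j) = y (G i k' j)) ∧ (∀ i i' k j, z (G i k j) = z (G i' k j)) ∧
    (∀ i k j i' k' j', i < r → i' < r → k < s → k' < s → j < t → j' < t →
      G i k j = G i' k' j' → i = i' ∧ k = k' ∧ j = j') := by
  obtain ⟨G, h1, h2, h3, h4, h5⟩ := hG
  refine ⟨fun i k j => G ⟨i % r, Nat.mod_lt _ hr⟩ ⟨k % s, Nat.mod_lt _ hs⟩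
    ⟨j % t, Nat.mod_lt _ ht⟩, fun i k j => h1 _ _ _, fun i k j j' => h2 _ _ _ _,
    fun i k k' j => h3 _ _ _ _, fun i i' k j => h4 _ _ _ _, ?_⟩
  intro i k j i' k' j' hi hi' hk hk' hj hj' h
  have h6 := h5 _ _ _ _ _ _ h
  simp only [Fin.mk.injEq] at h6
  rw [Nat.mod_eq_of_lt hi, Nat.mod_eq_of_lt hi', Nat.mod_eq_of_lt hk, Nat.mod_eq_of_lt hk',
    Nat.mod_eq_of_lt hj, Nat.mod_eq_of_lt hj'] at h6
  exact h6

end grid

section sub

variable {V : Type} [Fintype V] [DecidableEq V]

/-- A grid with two strands and three points contains `s` edges on `s + 3` vertices, `s = 18` or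
`s ≥ 22`. -/
lemma grid_sub {s : ℕ} (hs : s = 18 ∨ 22 ≤ s) (H : Finset (Finset V)) (x y z : Finset V → V)
    (h3 : ∀ e ∈ H, e = {x e, y e, z e}) (hG : Grid H x y z 2 3 s) :
    ∃ T ⊆ H, T.card = s ∧ (T.biUnion id).card ≤ s + 3 := by
  classical
  obtain ⟨G, h1, h2, h3', h4, h5⟩ := grid_nat (by omega) (by omega) (by omega) hG
  set e : ℕ → Finset V := fun N => G (N % 2) (N % 6 / 2) (N / 6) with he
  refine ⟨(range s).image e, ?_, ?_, ?_⟩
  · intro a ha
    rw [mem_image] at ha
    obtain ⟨N, _, rfl⟩ := ha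
    exact h1 _ _ _
  · rw [card_image_of_injOn, card_range]
    intro N hN N' hN' h
    rw [mem_coe, mem_range] at hN hN'
    have h6 := h5 _ _ _ _ _ _ (by omega) (by omega) (by omega) (by omega) (by omega) (by omega) h
    omega
  · have hx : ∀ N, x (e N) = x (G (N % 6 % 2) (N % 6 / 2) 0) := by
      intro N
      have e1 : N % 6 % 2 = N % 2 := by omega
      rw [e1]
      exact h2 _ _ _ _
    have hy : ∀ N, y (e N) = y (G ((2 * (N / 6) + N % 2) % 2) 0 ((2 * (N / 6) + N % 2) / 2)) := by
      intro N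
      have e1 : (2 * (N / 6) + N % 2) % 2 = N % 2 := by omega
      have e2 : (2 * (N / 6) + N % 2) / 2 = N / 6 := by omega
      rw [e1, e2]
      exact h3' _ _ _ _
    have hz : ∀ N, z (e N) = z (G 0 (N / 2 % 3) (N / 2 / 3)) := by
      intro N
      have e1 : N / 2 % 3 = N % 6 / 2 := by omega
      have e2 : N / 2 / 3 = N / 6 := by omega
      rw [e1, e2]
      exact h4 _ _ _ _
    have hsub : ((range s).image e).biUnion id ⊆
        (range 6).image (fun M => x (G (M % 2) (M / 2) 0)) ∪
        ((range (2 * (s / 6) + min 2 (s % 6))).image (fun M => y (G (M % 2) 0 (M / 2))) ∪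
        (range ((s + 1) / 2)).image (fun M => z (G 0 (M % 3) (M / 3)))) := by
      intro v hv
      rw [mem_biUnion] at hv
      obtain ⟨a, ha, hva⟩ := hv
      rw [mem_image] at ha
      obtain ⟨N, hN, rfl⟩ := ha
      rw [mem_range] at hN
      rw [id, mem_edge h3 (h1 _ _ _)] at hva
      rw [mem_union, mem_union, mem_image, mem_image, mem_image]
      rcases hva with hva | hva | hva
      · exact Or.inl ⟨N % 6, by rw [mem_range]; omega, ((hva.trans (hx N))).symm⟩
      · refine Or.inr (Or.inl ⟨2 * (N / 6) + N % 2, by rw [mem_range]; omega, ?_⟩)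
        exact (hva.trans (hy N)).symm
      · exact Or.inr (Or.inr ⟨N / 2, by rw [mem_range]; omega, (hva.trans (hz N)).symm⟩)
    have hc := (card_le_card hsub).trans ((card_union_le _ _).trans
      (Nat.add_le_add_left (card_union_le _ _) _))
    have c1 := card_image_le (s := range 6) (f := fun M => x (G (M % 2) (M / 2) 0))
    have c2 := card_image_le (s := range (2 * (s / 6) + min 2 (s % 6)))
      (f := fun M => y (G (M % 2) 0 (M / 2)))
    have c3 := card_image_le (s := range ((s + 1) / 2)) (f := fun M => z (G 0 (M % 3) (M / 3)))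
    rw [card_range] at c1 c2 c3
    omega

end sub

end Pool.Agent.T2H80.Bes
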