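import Pool.Agent.T2H80.Bes.Main

set_option autoImplicit false
set_option linter.unusedSectionVars false

open Finset

namespace Pool.Agent.T2H80.Bes

/-- Concavity. -/
lemma sum_rpow_le' {ι : Type} [Fintype ι] (f : ι → ℝ) (hf : ∀ i, 0 ≤ f i) (θ : ℝ) (h0 : 0 < θ)
    (h1 : θ ≤ 1) :
    ∑ i, f i ^ θ ≤ (Fintype.card ι : ℝ) ^ (1 - θ) * (∑ i, f i) ^ θ := by
  have hp : (1 : ℝ) ≤ 1 / θ := by rw [le_div_iff₀ h0]; linarith
  have h2 := Real.rpow_sum_le_const_mul_sum_rpow_of_nonneg (s := (univ : Finset ι))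
    (f := fun i => f i ^ θ) (p := 1 / θ) hp (fun i _ => Real.rpow_nonneg (hf i) _)
  have h3 : ∀ i, (f i ^ θ) ^ (1 / θ) = f i := by
    intro i
    rw [← Real.rpow_mul (hf i), mul_one_div_cancel h0.ne', Real.rpow_one]
  simp only [h3] at h2
  rw [card_univ] at h2
  have h4 : (0 : ℝ) ≤ ∑ i, f i ^ θ := sum_nonneg fun i _ => Real.rpow_nonneg (hf i) _
  have h5 : (0 : ℝ) ≤ ∑ i, f i := sum_nonneg fun i _ => hf i
  have h6 := Real.rpow_le_rpow (Real.rpow_nonneg h4 _) h2 h0.le
  rw [← Real.rpow_mul h4, one_div_mul_cancel h0.ne', Real.rpow_one,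
    Real.mul_rpow (by positivity) h5, ← Real.rpow_mul (Nat.cast_nonneg _)] at h6
  have h7 : (1 / θ - 1) * θ = 1 - θ := by field_simp
  rwa [h7] at h6

/-- The choice of the names and of the pieces, and the sum over the pairs of orders. -/
lemma split {V ι : Type} [Fintype V] [DecidableEq V] [Fintype ι] (α β : ι → V → ℝ)
    (H : Finset (Finset V)) (A : Finset (Finset (Finset V))) (θ D : ℝ) (hθ0 : 0 < θ) (hθ1 : θ ≤ 1)
    (hD : 0 ≤ D) (hA : ∀ B ∈ A, ∃ i, MonotonePiece (α i) (β i) B) (hcov : ∀ e ∈ H, ∃ B ∈ A, e ∈ B)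
    (h : ∀ (i : ι) (x y z : Finset V → V) (H' : Finset (Finset V))
      (π : Finset V → Finset (Finset V)) (Q : Finset (Finset (Finset V)))
      (σ : Finset (Finset V) → Prop), H' ⊆ H → (∀ e ∈ H', e = {x e, y e, z e}) →
      Pieces H' x y z π (α i) (β i) σ → (∀ e ∈ H', π e ∈ Q) → (#H' : ℝ) ≤ D * (#Q : ℝ) ^ θ) :
    (#H : ℝ) ≤ D * ((Fintype.card ι : ℝ) ^ (1 - θ) * (#A : ℝ) ^ θ) := by
  classical
  rcases H.eq_empty_or_nonempty with rfl | hH
  · simp only [card_empty, Nat.cast_zero]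
    positivity
  obtain ⟨e0, he0⟩ := hH
  obtain ⟨B0, hB0, -⟩ := hcov e0 he0
  obtain ⟨i0, v0, x0, z0, hv0⟩ := hA B0 hB0
  -- the names of the edges
  have hA' : ∀ B : Finset (Finset V), ∃ (i : ι) (v : V) (x z : Finset V → V), B ∈ A →
      (∀ e ∈ B, e = {x e, v, z e}) ∧
      ((∀ e ∈ B, ∀ f ∈ B, α i (x e) < α i (x f) → β i (z e) ≤ β i (z f)) ∨
      (∀ e ∈ B, ∀ f ∈ B, α i (x e) < α i (x f) → β i (z f) ≤ β i (z e))) := by
    intro B
    by_cases hB : B ∈ A
    · obtain ⟨i, v, x, z, h1⟩ := hA B hB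
      exact ⟨i, v, x, z, fun _ => h1⟩
    · exact ⟨i0, v0, x0, z0, fun h => absurd h hB⟩
  choose τ v x z hp using hA'
  have hcov' : ∀ e : Finset V, ∃ B : Finset (Finset V), e ∈ H → B ∈ A ∧ e ∈ B := by
    intro e
    by_cases he : e ∈ H
    · obtain ⟨B, hB, heB⟩ := hcov e he
      exact ⟨B, fun _ => ⟨hB, heB⟩⟩
    · exact ⟨∅, fun h => absurd h he⟩
  choose π hπ using hcov'
  have hkey : ∀ i : ι, (#{e ∈ H | τ (π e) = i} : ℝ) ≤ D * (#{B ∈ A | τ B = i} : ℝ) ^ θ := by
    intro i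
    refine h i (fun e => x (π e) e) (fun e => v (π e))
      (fun e => z (π e) e) {e ∈ H | τ (π e) = i} π {B ∈ A | τ B = i}
      (fun B => ∀ e ∈ B, ∀ f ∈ B, α i (x B e) < α i (x B f) → β i (z B e) ≤ β i (z B f))
      (filter_subset _ _) ?_ ?_ ?_
    · intro e he
      rw [mem_filter] at he
      exact (hp (π e) (hπ e he.1).1).1 e (hπ e he.1).2
    · refine ⟨?_, ?_, ?_⟩
      · intro e _ f _ hef
        simp only [hef]
      · intro e he f hf hef hs hlt
        rw [mem_filter] at he hf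
        rw [← hef] at hlt ⊢
        exact hs e (hπ e he.1).2 f (hef ▸ (hπ f hf.1).2) hlt
      · intro e he f hf hef hs hlt
        rw [mem_filter] at he hf
        rw [← hef] at hlt ⊢
        have h5 := (hp (π e) (hπ e he.1).1).2
        rw [he.2] at h5
        rcases h5 with h5 | h5
        · exact absurd h5 hs
        · exact h5 e (hπ e he.1).2 f (hef ▸ (hπ f hf.1).2) hlt
    · intro e he
      rw [mem_filter] at he ⊢
      exact ⟨(hπ e he.1).1, he.2⟩
  have hsum1 : (#H : ℝ) = ∑ i : ι, (#{e ∈ H | τ (π e) = i} : ℝ) := by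
    have := card_eq_sum_card_fiberwise (f := fun e => τ (π e)) (s := H) (t := univ)
      (fun _ _ => mem_univ _)
    exact_mod_cast this
  have hsum2 : (#A : ℝ) = ∑ i : ι, (#{B ∈ A | τ B = i} : ℝ) := by
    have := card_eq_sum_card_fiberwise (f := fun B => τ B) (s := A) (t := univ)
      (fun _ _ => mem_univ _)
    exact_mod_cast this
  have h6 := sum_rpow_le' (fun i : ι => (#{B ∈ A | τ B = i} : ℝ)) (fun i => Nat.cast_nonneg _)
    θ hθ0 hθ1
  rw [← hsum2] at h6
  calc (#H : ℝ) = ∑ i : ι, (#{e ∈ H | τ (π e) = i} : ℝ) := hsum1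
    _ ≤ ∑ i : ι, D * (#{B ∈ A | τ B = i} : ℝ) ^ θ := sum_le_sum fun i _ => hkey i
    _ = D * (∑ i : ι, (#{B ∈ A | τ B = i} : ℝ) ^ θ) := by rw [← mul_sum]
    _ ≤ _ := mul_le_mul_of_nonneg_left h6 hD

/-- A grid has `r * s * t` edges and at most `r * s + r * t + s * t` vertices. -/
lemma grid_all {V : Type} [Fintype V] [DecidableEq V] {r s t : ℕ} (H : Finset (Finset V))
    (x y z : Finset V → V) (h3 : ∀ e ∈ H, e = {x e, y e, z e}) (hG : Grid H x y z r s t) :
    ∃ T ⊆ H, T.card = r * s * t ∧ (T.biUnion id).card ≤ r * s + r * t + s * t := by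
  classical
  obtain ⟨G, h1, h2, h3', h4, h5⟩ := hG
  refine ⟨(univ : Finset (Fin r × Fin s × Fin t)).image (fun q => G q.1 q.2.1 q.2.2), ?_, ?_, ?_⟩
  · intro a ha
    rw [mem_image] at ha
    obtain ⟨q, _, rfl⟩ := ha
    exact h1 _ _ _
  · rw [card_image_of_injective, card_univ]
    · simp [mul_assoc]
    · intro q q' h
      have := h5 _ _ _ _ _ _ h
      exact Prod.ext this.1 (Prod.ext this.2.1 this.2.2)
  · rcases Nat.eq_zero_or_pos (r * s * t) with h0 | h0
    · have : (univ : Finset (Fin r × Fin s × Fin t)) = ∅ := by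
        rw [← card_eq_zero, card_univ]
        simpa [mul_assoc] using h0
      rw [this]
      simp
    have hr : 0 < r := by
      rcases Nat.eq_zero_or_pos r with h | h
      · simp [h] at h0
      · exact h
    have hs : 0 < s := by
      rcases Nat.eq_zero_or_pos s with h | h
      · simp [h] at h0
      · exact h
    have ht : 0 < t := by
      rcases Nat.eq_zero_or_pos t with h | h
      · simp [h] at h0
      · exact h
    have hsub : ((univ : Finset (Fin r × Fin s × Fin t)).image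
        (fun q => G q.1 q.2.1 q.2.2)).biUnion id ⊆
        ((univ : Finset (Fin r × Fin s)).image (fun q => x (G q.1 q.2 ⟨0, ht⟩)) ∪
        (univ : Finset (Fin r × Fin t)).image (fun q => y (G q.1 ⟨0, hs⟩ q.2))) ∪
        (univ : Finset (Fin s × Fin t)).image (fun q => z (G ⟨0, hr⟩ q.1 q.2)) := by
      intro v hv
      rw [mem_biUnion] at hv
      obtain ⟨a, ha, hva⟩ := hv
      rw [mem_image] at ha
      obtain ⟨q, _, rfl⟩ := ha
      rw [id, mem_edge h3 (h1 _ _ _)] at hva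
      rw [mem_union, mem_union, mem_image, mem_image, mem_image]
      rcases hva with hva | hva | hva
      · exact Or.inl (Or.inl ⟨(q.1, q.2.1), mem_univ _, (hva.trans (h2 _ _ _ _)).symm⟩)
      · exact Or.inl (Or.inr ⟨(q.1, q.2.2), mem_univ _, (hva.trans (h3' _ _ _ _)).symm⟩)
      · exact Or.inr ⟨(q.2.1, q.2.2), mem_univ _, (hva.trans (h4 _ _ _ _)).symm⟩
    have hc := (card_le_card hsub).trans ((card_union_le _ _).trans
      (Nat.add_le_add_right (card_union_le _ _) _))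
    have c1 := card_image_le (s := (univ : Finset (Fin r × Fin s)))
      (f := fun q => x (G q.1 q.2 ⟨0, ht⟩))
    have c2 := card_image_le (s := (univ : Finset (Fin r × Fin t)))
      (f := fun q => y (G q.1 ⟨0, hs⟩ q.2))
    have c3 := card_image_le (s := (univ : Finset (Fin s × Fin t)))
      (f := fun q => z (G ⟨0, hr⟩ q.1 q.2))
    rw [card_univ, Fintype.card_prod, Fintype.card_fin, Fintype.card_fin] at c1 c2 c3
    omega

/-- The exponents. -/
lemma exps (r s : ℕ) (P n : ℝ) (hP : 0 < P) (hn : 0 < n) :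
    let ρ : ℝ := (r + 2) * (s + 1) + 1
    let u : ℝ := P ^ (((r : ℝ) + 2) / ρ) * n ^ (-((r : ℝ) + 1) / ρ)
    let B : ℝ := P ^ (1 - 1 / ρ) * n ^ (2 - 1 / ((r : ℝ) + 2) - (r + 1) * (s + 1) / ρ)
    u ^ ((r + 2) * (s + 1) + 1) * n ^ (r + 1) = P ^ (r + 2) ∧
    B ^ (r + 2) = n ^ (2 * r + 3) * u ^ ((r + 2) * (s + 1)) := by
  intro ρ u B
  have hρ : 0 < ρ := by positivity
  have hρ' : (((r + 2) * (s + 1) + 1 : ℕ) : ℝ) = ρ := by push_cast; rfl
  constructor
  · rw [mul_pow, ← Real.rpow_natCast (P ^ _), ← Real.rpow_mul hP.le,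
      ← Real.rpow_natCast (n ^ _), ← Real.rpow_mul hn.le, ← Real.rpow_natCast n,
      mul_assoc, ← Real.rpow_add hn, hρ', div_mul_cancel₀ _ hρ.ne', div_mul_cancel₀ _ hρ.ne']
    push_cast
    have e1 : -((r : ℝ) + 1) + (r + 1) = 0 := by ring
    rw [e1, Real.rpow_zero, mul_one, ← Real.rpow_natCast]
    push_cast
    rfl
  · have e0 : (((r + 2) * (s + 1) : ℕ) : ℝ) = ρ - 1 := by
      push_cast
      show ((r : ℝ) + 2) * (s + 1) = (r + 2) * (s + 1) + 1 - 1
      ring
    rw [mul_pow, mul_pow, ← Real.rpow_natCast (P ^ _), ← Real.rpow_mul hP.le,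
      ← Real.rpow_natCast (n ^ _), ← Real.rpow_mul hn.le,
      ← Real.rpow_natCast (P ^ _), ← Real.rpow_mul hP.le,
      ← Real.rpow_natCast (n ^ _), ← Real.rpow_mul hn.le, ← Real.rpow_natCast n,
      mul_left_comm, ← Real.rpow_add hn, e0]
    congr 2
    · push_cast
      field_simp
    · push_cast
      have e2 : ρ - 1 = (r + 2) * (s + 1) := by
        show ((r : ℝ) + 2) * (s + 1) + 1 - 1 = (r + 2) * (s + 1)
        ring
      rw [e2]
      field_simp
      ring

/-- A linear subsystem of a 3-graph in which every pair lies in at most `D` edges. -/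
lemma exists_linear' {V : Type} [Fintype V] [DecidableEq V] {D : ℕ} (H : Finset (Finset V))
    (h3 : ∀ e ∈ H, e.card = 3)
    (hD : ∀ q : Finset V, q.card = 2 → #{e ∈ H | q ⊆ e} ≤ D) :
    ∃ H' ⊆ H, (∀ e ∈ H', ∀ f ∈ H', e ≠ f → (e ∩ f).card ≤ 1) ∧ #H ≤ 3 * D * #H' := by
  classical
  obtain ⟨H', hH', hmax⟩ := exists_max_image (H.powerset.filter fun A =>
    ∀ e ∈ A, ∀ f ∈ A, e ≠ f → (e ∩ f).card ≤ 1) card ⟨∅, by simp⟩
  rw [mem_filter, mem_powerset] at hH'
  refine ⟨H', hH'.1, hH'.2, ?_⟩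
  have h1 : H ⊆ H'.biUnion fun f => {e ∈ H | 2 ≤ (e ∩ f).card} := by
    intro e he
    rw [mem_biUnion]
    by_contra hcon
    push Not at hcon
    have h2 : ∀ f ∈ H', (e ∩ f).card ≤ 1 := by
      intro f hf
      by_contra h
      exact hcon f hf (mem_filter.2 ⟨he, by omega⟩)
    have he' : e ∉ H' := by
      intro h
      have := h2 e h
      rw [inter_self, h3 e he] at this
      omega
    have h4 := hmax (insert e H') (by
      rw [mem_filter, mem_powerset]
      refine ⟨insert_subset he hH'.1, ?_⟩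
      intro a ha b hb hab
      rw [mem_insert] at ha hb
      rcases ha with rfl | ha <;> rcases hb with rfl | hb
      · exact absurd rfl hab
      · exact h2 b hb
      · rw [inter_comm]; exact h2 a ha
      · exact hH'.2 a ha b hb hab)
    rw [card_insert_of_notMem he'] at h4
    omega
  refine (card_le_card h1).trans (card_biUnion_le.trans ?_)
  calc ∑ f ∈ H', #{e ∈ H | 2 ≤ (e ∩ f).card} ≤ ∑ _f ∈ H', 3 * D := by
        refine sum_le_sum fun f hf => ?_
        have h2 : {e ∈ H | 2 ≤ (e ∩ f).card} ⊆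
            (f.powersetCard 2).biUnion fun q => {e ∈ H | q ⊆ e} := by
          intro e he
          rw [mem_filter] at he
          obtain ⟨q, hq, hqc⟩ := exists_subset_card_eq he.2
          rw [mem_biUnion]
          refine ⟨q, ?_, ?_⟩
          · rw [mem_powersetCard]
            exact ⟨hq.trans inter_subset_right, hqc⟩
          · rw [mem_filter]
            exact ⟨he.1, hq.trans inter_subset_left⟩
        refine (card_le_card h2).trans (card_biUnion_le.trans ?_)
        calc ∑ q ∈ f.powersetCard 2, #{e ∈ H | q ⊆ e} ≤ ∑ _q ∈ f.powersetCard 2, D := by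
              refine sum_le_sum fun q hq => ?_
              exact hD q (mem_powersetCard.1 hq).2
          _ = 3 * D := by
              rw [sum_const, card_powersetCard, h3 f (hH'.1 hf)]
              simp [Nat.choose]
    _ = 3 * D * #H' := by rw [sum_const, smul_eq_mul, mul_comm]

theorem grids (r s t : ℕ) (hr : 2 ≤ r) (hs : 2 ≤ s) : ∃ C : ℝ, 0 < C ∧
    ∀ (V ι : Type) [Fintype V] [DecidableEq V] [Fintype ι] (α β : ι → V → ℝ)
      (H : Finset (Finset V)) (A : Finset (Finset (Finset V))) (D : ℕ) (ρ : ℝ),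
      ρ = r * (s - 1) + 1 →
      (∀ i, Function.Injective (α i)) → (∀ i, Function.Injective (β i)) →
      (∀ e ∈ H, e.card = 3) → (∀ q : Finset V, q.card = 2 → #{e ∈ H | q ⊆ e} ≤ D) →
      (∀ B ∈ A, ∃ i, MonotonePiece (α i) (β i) B) → (∀ e ∈ H, ∃ B ∈ A, e ∈ B) →
      (∀ T ⊆ H, T.card = r * s * t → r * s + r * t + s * t < (T.biUnion id).card) →
      (#H : ℝ) ≤ C * D * (Fintype.card ι : ℝ) ^ (1 / ρ) * (#A : ℝ) ^ (1 - 1 / ρ) *
        (Fintype.card V : ℝ) ^ (1 + (1 - 1 / r) / ρ) := by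
  classical
  obtain ⟨r, rfl⟩ : ∃ r', r = r' + 2 := ⟨r - 2, by omega⟩
  obtain ⟨s, rfl⟩ : ∃ s', s = s' + 2 := ⟨s - 2, by omega⟩
  obtain ⟨C, hC, hlin⟩ := lin_bound r s t
  have hC0 : 0 < C := by linarith
  refine ⟨3 * C, by positivity, ?_⟩
  intro V ι _ _ _ α β H A D ρ hρ hα hβ h3 hD hA hcov hfree
  have hρ1 : ρ = (r + 2) * (s + 1) + 1 := by rw [hρ]; push_cast; ring
  have hρ2 : 1 < ρ := by
    rw [hρ1]
    have : (0 : ℝ) < ((r : ℝ) + 2) * (s + 1) := by positivity
    linarith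
  have hρ0 : 0 < ρ := by linarith
  have he : (1 : ℝ) + (1 - 1 / ((r + 2 : ℕ) : ℝ)) / ρ =
      2 - 1 / ((r : ℝ) + 2) - (r + 1) * (s + 1) / ρ := by
    rw [hρ1]
    have h1 : ((r : ℝ) + 2) * (s + 1) + 1 ≠ 0 := by positivity
    have h2 : (r : ℝ) + 2 ≠ 0 := by positivity
    push_cast
    field_simp
    ring
  rw [he]
  have hθ0 : 0 < 1 - 1 / ρ := by
    rw [sub_pos, div_lt_one hρ0]
    exact hρ2
  have hθ1 : 1 - 1 / ρ ≤ 1 := by
    have : 0 < 1 / ρ := by positivity
    linarith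
  obtain ⟨H₁, hH₁, hl, hcard⟩ := exists_linear' H h3 hD
  have h := split α β H₁ A (1 - 1 / ρ)
    (C * (Fintype.card V : ℝ) ^ (2 - 1 / ((r : ℝ) + 2) - (r + 1) * (s + 1) / ρ)) hθ0 hθ1
    (by positivity) hA (fun e he => hcov e (hH₁ he)) ?_
  · have h5 : (#H : ℝ) ≤ 3 * D * #H₁ := by exact_mod_cast hcard
    refine h5.trans ((mul_le_mul_of_nonneg_left h (by positivity)).trans (le_of_eq ?_))
    have : 1 - (1 - 1 / ρ) = 1 / ρ := by ring
    rw [this]
    ring
  · intro i x y z H' π Q σ hH' hn hpi hQ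
    rcases H'.eq_empty_or_nonempty with rfl | hne
    · simp only [card_empty, Nat.cast_zero]
      positivity
    obtain ⟨e0, he0⟩ := hne
    have hn1 : 1 ≤ Fintype.card V := by
      rw [Nat.succ_le_iff, Fintype.card_pos_iff]
      exact ⟨x e0⟩
    have hQ1 : 1 ≤ #Q := card_pos.2 ⟨_, hQ e0 he0⟩
    have hN : (0 : ℝ) < Fintype.card V := by exact_mod_cast hn1
    have hP : (0 : ℝ) < #Q := by exact_mod_cast hQ1
    have hL := lin_of H' x y z (fun e he => ⟨h3 e (hH₁ (hH' he)), hn e he⟩)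
      (fun e he f hf => hl e (hH' he) f (hH' hf))
    have hG : ¬ Grid H' x y z (r + 2) (s + 2) t := by
      intro hG
      obtain ⟨T, hT, hTc, hTs⟩ := grid_all H' x y z hn hG
      have := hfree T (hT.trans (hH'.trans hH₁)) hTc
      omega
    have hexp := exps r s (#Q : ℝ) (Fintype.card V : ℝ) hP hN
    rw [← hρ1] at hexp
    have hmain := hlin (Finset V) V V V (Finset (Finset V)) H' x y z π Q (α i) (β i) σ
      (Fintype.card V) _ _ hL hpi hQ (hα i) (hβ i) le_rfl le_rfl hn1 hG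
      (by positivity) (by positivity) hexp.1 hexp.2
    refine hmain.trans (le_of_eq ?_)
    ring

end Pool.Agent.T2H80.Bes
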