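import Pool.Agent.T2H80.Bes.Core

set_option autoImplicit false
set_option linter.unusedSectionVars false

open Finset

namespace Pool.Agent.T2H80.Bes

lemma prod_two {r : ℕ} (i j : Fin (r + 2)) (hij : i ≠ j) (K n : ℕ) :
    ∏ k : Fin (r + 2), (if k = i then 1 else if k = j then K else n) = K * n ^ r := by
  rw [← mul_prod_erase univ _ (mem_univ i), if_pos rfl, one_mul]
  rw [← mul_prod_erase (univ.erase i) _ (mem_erase.2 ⟨hij.symm, mem_univ j⟩), if_neg hij.symm,
    if_pos rfl]
  congr 1
  rw [prod_congr rfl (g := fun _ => n)]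
  · rw [prod_const, card_erase_of_mem (mem_erase.2 ⟨hij.symm, mem_univ j⟩),
      card_erase_of_mem (mem_univ i), card_univ, Fintype.card_fin]
    rfl
  · intro k hk
    rw [mem_erase, mem_erase] at hk
    rw [if_neg hk.2.1, if_neg hk.1]

variable {E X Y Z P : Type*} [DecidableEq E] [DecidableEq X] [DecidableEq Y] [DecidableEq Z]
  [DecidableEq P] {H : Finset E} {x : E → X} {y : E → Y} {z : E → Z} {π : E → P} {p : X → ℕ}

lemma card_bad [Fintype X] {n K r : ℕ} (hL : Lin H x y z) (hX : Fintype.card X ≤ n)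
    (hK : ∀ a, #{b | p b = p a} ≤ K) (i j : Fin (r + 2)) (hij : i ≠ j) :
    #{f ∈ Fintype.piFinset (fun _ : Fin (r + 2) => H) |
      (∀ i j, z (f i) = z (f j)) ∧ p (x (f i)) = p (x (f j))} ≤ #H * (K * n ^ r) := by
  classical
  have h1 : #{f ∈ Fintype.piFinset (fun _ : Fin (r + 2) => H) |
      (∀ i j, z (f i) = z (f j)) ∧ p (x (f i)) = p (x (f j))} ≤
      #(H.sigma fun e => Fintype.piFinset (fun k : Fin (r + 2) =>
        if k = i then {x e} else if k = j then ({b | p b = p (x e)} : Finset X) else univ)) := by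
    refine Finset.card_le_card_of_injOn (fun f => ⟨f i, fun k => x (f k)⟩) ?_ ?_
    · intro f hf
      simp only [coe_filter, Fintype.mem_piFinset, Set.mem_ofPred_eq] at hf
      simp only [mem_coe, mem_sigma, Fintype.mem_piFinset]
      refine ⟨hf.1 i, fun k => ?_⟩
      split_ifs with h1 h2
      · rw [h1]; exact mem_singleton_self _
      · rw [h2]; simp only [mem_filter, mem_univ, true_and]; exact hf.2.2.symm
      · exact mem_univ _
    · intro f hf g hg hfg
      simp only [coe_filter, Fintype.mem_piFinset, Set.mem_ofPred_eq] at hf hg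
      simp only [Sigma.mk.injEq, heq_eq_eq] at hfg
      funext k
      refine hL.xz _ (hf.1 k) _ (hg.1 k) (congrFun hfg.2 k) ?_
      rw [hf.2.1 k i, hfg.1, hg.2.1 i k]
  refine h1.trans ?_
  rw [card_sigma]
  have h2 : ∀ e ∈ H, #(Fintype.piFinset (fun k : Fin (r + 2) =>
        if k = i then {x e} else if k = j then ({b | p b = p (x e)} : Finset X) else univ)) ≤
        K * n ^ r := by
    intro e _
    rw [Fintype.card_piFinset, ← prod_two i j hij K n]
    refine prod_le_prod' fun k _ => ?_
    split_ifs with h1 h2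
    · simp
    · exact hK _
    · simpa using hX
  calc _ ≤ ∑ _e ∈ H, K * n ^ r := sum_le_sum h2
    _ = #H * (K * n ^ r) := by simp

lemma inc_lower [Fintype X] [Fintype Z] {n K r : ℕ} (hL : Lin H x y z) (hX : Fintype.card X ≤ n)
    (hZ : Fintype.card Z ≤ n) (hK : ∀ a, #{b | p b = p a} ≤ K) :
    #H ^ (r + 2) ≤ n ^ (r + 1) *
      (#(Inc H x z p (r + 2)) + (r + 2) * (r + 2) * (#H * (K * n ^ r))) := by
  classical
  set J : Finset (Fin (r + 2) → E) := {f ∈ Fintype.piFinset (fun _ : Fin (r + 2) => H) |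
    ∀ i j, z (f i) = z (f j)} with hJ
  -- lower bound for `J`
  have h1 : #H ^ (r + 2) ≤ n ^ (r + 1) * #J := by
    have h2 := power_mean (univ : Finset Z) (fun ζ => #{e ∈ H | z e = ζ}) 0 (r + 1)
    simp only [Nat.zero_mul, Nat.sub_zero] at h2
    rw [← card_eq_sum_card_fiberwise (f := z) (s := H) (t := univ) (fun _ _ => mem_univ _)] at h2
    refine h2.trans ?_
    refine Nat.mul_le_mul (Nat.pow_le_pow_left (by simpa using hZ) _) ?_
    have h3 : ∑ ζ : Z, #{e ∈ H | z e = ζ} ^ (r + 1 + 1) =
        #(univ.biUnion fun ζ : Z => Fintype.piFinset (fun _ : Fin (r + 2) => {e ∈ H | z e = ζ})) := by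
      rw [card_biUnion]
      · refine sum_congr rfl fun ζ _ => ?_
        rw [Fintype.card_piFinset_const]
      · intro a _ b _ hab
        rw [Function.onFun, disjoint_left]
        intro f hf hf'
        simp only [Fintype.mem_piFinset, mem_filter] at hf hf'
        exact hab ((hf 0).2.symm.trans (hf' 0).2)
    rw [h3]
    refine card_le_card ?_
    intro f hf
    simp only [mem_biUnion, mem_univ, true_and, Fintype.mem_piFinset, mem_filter] at hf
    obtain ⟨ζ, hζ⟩ := hf
    simp only [hJ, mem_filter, Fintype.mem_piFinset]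
    exact ⟨fun k => (hζ k).1, fun i j => (hζ i).2.trans (hζ j).2.symm⟩
  refine h1.trans (Nat.mul_le_mul_left _ ?_)
  -- upper bound for `J`
  have h2 : J ⊆ Inc H x z p (r + 2) ∪ ((univ : Finset (Fin (r + 2) × Fin (r + 2))).filter
      (fun q => q.1 ≠ q.2)).biUnion (fun q => {f ∈ Fintype.piFinset (fun _ : Fin (r + 2) => H) |
      (∀ i j, z (f i) = z (f j)) ∧ p (x (f q.1)) = p (x (f q.2))}) := by
    intro f hf
    simp only [hJ, mem_filter, Fintype.mem_piFinset] at hf
    rw [mem_union, mem_Inc]
    by_cases hi : Function.Injective (fun i => p (x (f i)))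
    · exact Or.inl ⟨hf.1, hf.2, hi⟩
    · right
      simp only [Function.Injective] at hi
      push Not at hi
      obtain ⟨a, b, hab, hne⟩ := hi
      simp only [mem_biUnion, mem_filter, mem_univ, true_and, Fintype.mem_piFinset]
      exact ⟨(a, b), hne, hf.1, hf.2, hab⟩
  refine (card_le_card h2).trans ((card_union_le _ _).trans (Nat.add_le_add_left ?_ _))
  refine card_biUnion_le.trans ?_
  calc _ ≤ ∑ _q ∈ (univ : Finset (Fin (r + 2) × Fin (r + 2))).filter (fun q => q.1 ≠ q.2),
        #H * (K * n ^ r) := by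
        refine sum_le_sum fun q hq => ?_
        exact card_bad hL hX hK q.1 q.2 (mem_filter.1 hq).2
    _ = #((univ : Finset (Fin (r + 2) × Fin (r + 2))).filter (fun q => q.1 ≠ q.2)) *
        (#H * (K * n ^ r)) := by simp
    _ ≤ (r + 2) * (r + 2) * (#H * (K * n ^ r)) := by
        refine Nat.mul_le_mul_right _ ?_
        refine (card_le_card (filter_subset _ _)).trans ?_
        simp

/-- If every family of pieces meets at most `B` cells. -/
lemma meet_le {r B : ℕ} (Q : Finset P) (hQ : ∀ e ∈ H, π e ∈ Q)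
    (hB : ∀ κ : Fin r → P, #(((Inc H x z p r).filter (fun f => (fun i => π (f i)) = κ)).image
      (fun f i => p (x (f i)))) ≤ B) : Meet H x z π p r ≤ #Q ^ r * B := by
  classical
  unfold Meet
  have h1 : (Inc H x z p r).image (key x π p r) ⊆ (Fintype.piFinset (fun _ : Fin r => Q)).biUnion
      (fun κ => (((Inc H x z p r).filter (fun f => (fun i => π (f i)) = κ)).image
      (fun f i => p (x (f i)))).image (fun c => (κ, c))) := by
    intro a ha
    rw [mem_image] at ha
    obtain ⟨f, hf, rfl⟩ := ha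
    simp only [mem_biUnion, Fintype.mem_piFinset, mem_image, mem_filter]
    exact ⟨fun i => π (f i), fun i => hQ _ ((mem_Inc.1 hf).1 i), fun i => p (x (f i)),
      ⟨f, ⟨hf, rfl⟩, rfl⟩, rfl⟩
  refine (card_le_card h1).trans (card_biUnion_le.trans ?_)
  calc _ ≤ ∑ _κ ∈ Fintype.piFinset (fun _ : Fin r => Q), B :=
        sum_le_sum fun κ _ => card_image_le.trans (hB κ)
    _ = #Q ^ r * B := by simp

end Pool.Agent.T2H80.Bes
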