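import Pool.Agent.T2H80.Bes.Extract

set_option autoImplicit false
set_option linter.unusedSectionVars false

open Finset

namespace Pool.Agent.T2H80.Bes

/-- The bound for linear systems. -/
theorem lin_bound (r s t : ℕ) : ∃ C : ℝ, 1 ≤ C ∧
    ∀ (E X Y Z P : Type) [DecidableEq E] [DecidableEq X] [DecidableEq Y] [DecidableEq Z]
      [DecidableEq P] [Fintype X] [Fintype Z] (H : Finset E) (x : E → X) (y : E → Y)
      (z : E → Z) (π : E → P) (Q : Finset P) (α : X → ℝ) (β : Z → ℝ) (σ : P → Prop) (n : ℕ)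
      (u B : ℝ),
      Lin H x y z → Pieces H x y z π α β σ → (∀ e ∈ H, π e ∈ Q) →
      Function.Injective α → Function.Injective β →
      Fintype.card X ≤ n → Fintype.card Z ≤ n → 1 ≤ n → ¬ Grid H x y z (r + 2) (s + 2) t →
      0 < u → 0 < B →
      u ^ ((r + 2) * (s + 1) + 1) * (n : ℝ) ^ (r + 1) = (#Q : ℝ) ^ (r + 2) →
      B ^ (r + 2) = (n : ℝ) ^ (2 * r + 3) * u ^ ((r + 2) * (s + 1)) →
      (#H : ℝ) ≤ C * B := by
  obtain ⟨C, hC, h⟩ := calc1 r s t
  refine ⟨C, hC, ?_⟩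
  intro E X Y Z P _ _ _ _ _ _ _ H x y z π Q α β σ n u B hL hP hQ hα hβ hX hZ hn hG hu hB hu1 hB1
  refine h n #Q #H u B hn hu hB hu1 hB1 ?_ ?_ ?_
  · -- every piece has at most `n` elements
    calc #H ≤ #(Q ×ˢ (univ : Finset X)) := by
          refine Finset.card_le_card_of_injOn (fun e => (π e, x e))
            (fun e he => by simpa using hQ e he) ?_
          intro e he f hf hef
          simp only [Prod.mk.injEq] at hef
          exact hL.xy e he f hf hef.2 (hP.same e he f hf hef.1)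
      _ = #Q * Fintype.card X := by rw [card_product, card_univ]
      _ ≤ _ := Nat.mul_le_mul_left _ hX
  · calc #H ≤ #((univ : Finset X) ×ˢ (univ : Finset Z)) := by
          refine Finset.card_le_card_of_injOn (fun e => (x e, z e)) (fun _ _ => by simp) ?_
          intro e he f hf hef
          simp only [Prod.mk.injEq] at hef
          exact hL.xz e he f hf hef.1 hef.2
      _ = Fintype.card X * Fintype.card Z := by rw [card_product, card_univ, card_univ]
      _ ≤ n ^ 2 := by rw [sq]; exact Nat.mul_le_mul hX hZ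
  · intro K hK1 hK2
    obtain ⟨p, hp1, hp2, hp3⟩ := exists_classes α hα hX hK1
    refine ⟨#(Inc H x z p (r + 2)), Meet H x z π p (r + 2), ?_, ?_, ?_⟩
    · exact meet_le Q hQ fun κ => cells_le hL hα hβ hP hp1 hp2 κ
    · have h1 := count (s := s + 1) (r := r + 2) hL hP.same hp3 hG
      refine h1.trans (Nat.mul_le_mul_left _ (Nat.mul_le_mul_left _ ?_))
      exact Nat.pow_le_pow_left (Nat.mul_le_mul_right _ hX) _
    · exact inc_lower hL hX hZ hp3

theorem bes_pi (k : ℕ) (hk : k = 21 ∨ 25 ≤ k) : ∃ C : ℝ, 0 < C ∧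
    ∀ (V P : Type) [Fintype V] [DecidableEq V] [DecidableEq P] (α β : V → ℝ)
      (x y z : Finset V → V) (H : Finset (Finset V)) (π : Finset V → P) (Q : Finset P)
      (σ : P → Prop),
      Function.Injective α → Function.Injective β →
      (∀ e ∈ H, e.card = 3 ∧ e = {x e, y e, z e}) →
      Pieces H x y z π α β σ → (∀ e ∈ H, π e ∈ Q) →
      (∀ S : Finset V, S.card = k → #{e ∈ H | e ⊆ S} < k - 3) →
      (#H : ℝ) ≤ C * ((#Q : ℝ) ^ (4 / 5 : ℝ) * (Fintype.card V : ℝ) ^ (11 / 10 : ℝ)) := by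
  obtain ⟨s, rfl⟩ : ∃ s, k = s + 3 := ⟨k - 3, by omega⟩
  have hs : s = 18 ∨ 22 ≤ s := by omega
  obtain ⟨C, hC, hlin⟩ := lin_bound 0 1 s
  refine ⟨(s + 3 : ℝ) ^ 3 + 3 * s * C, by positivity, ?_⟩
  intro V P _ _ _ α β x y z H π Q σ hα hβ h3 hpi hQ hfree
  have hC0 : (0 : ℝ) < C := by linarith
  rcases H.eq_empty_or_nonempty with rfl | hH
  · simp only [card_empty, Nat.cast_zero]
    positivity
  obtain ⟨e0, he0⟩ := hH
  have hAne : Q.Nonempty := ⟨_, hQ e0 he0⟩
  set n := Fintype.card V with hn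
  have hn1 : 1 ≤ n := by
    rw [hn, Nat.succ_le_iff, Fintype.card_pos_iff]
    exact ⟨x e0⟩
  have hN : (1 : ℝ) ≤ n := by exact_mod_cast hn1
  have hP : (1 : ℝ) ≤ #Q := by exact_mod_cast hAne.card_pos
  have hb1 : (1 : ℝ) ≤ (#Q : ℝ) ^ (4 / 5 : ℝ) := Real.one_le_rpow hP (by norm_num)
  have hb2 : (1 : ℝ) ≤ (n : ℝ) ^ (11 / 10 : ℝ) := Real.one_le_rpow hN (by norm_num)
  have hb3 : (1 : ℝ) ≤ (#Q : ℝ) ^ (4 / 5 : ℝ) * (n : ℝ) ^ (11 / 10 : ℝ) := by nlinarith
  rcases lt_or_ge n (s + 3) with hns | hns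
  · -- few vertices
    have h1 : #H ≤ n ^ 3 := by
      calc #H ≤ #((univ : Finset V).powersetCard 3) := by
            refine card_le_card fun e he => ?_
            rw [mem_powersetCard]
            exact ⟨subset_univ _, (h3 e he).1⟩
        _ = n.choose 3 := by rw [card_powersetCard, card_univ]
        _ ≤ n ^ 3 := Nat.choose_le_pow _ _
    have h2 : (#H : ℝ) ≤ (s + 3 : ℝ) ^ 3 := by
      have h4 : (#H : ℝ) ≤ (n : ℝ) ^ 3 := by exact_mod_cast h1
      refine h4.trans (pow_le_pow_left₀ (by positivity) ?_ _)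
      exact_mod_cast hns.le
    have h5 : (0 : ℝ) ≤ 3 * s * C := by positivity
    calc (#H : ℝ) ≤ ((s + 3 : ℝ) ^ 3 + 3 * s * C) * 1 := by linarith
      _ ≤ _ := mul_le_mul_of_nonneg_left hb3 (by positivity)
  · -- the sparsity condition for sets of edges
    have hsp : ∀ T ⊆ H, T.card = s → s + 3 < (T.biUnion id).card := by
      intro T hT hTc
      by_contra hcon
      push Not at hcon
      obtain ⟨S, hS1, hS2⟩ := exists_superset_card_eq hcon hns
      have h1 := hfree S hS2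
      have h2 : T ⊆ {e ∈ H | e ⊆ S} := by
        intro e he
        rw [mem_filter]
        refine ⟨hT he, ?_⟩
        exact (subset_biUnion_of_mem id he).trans hS1
      have h3 := card_le_card h2
      omega
    obtain ⟨H', hH', hlin', hcard⟩ := exists_linear H (fun e he => (h3 e he).1) hsp
    have hL := lin_of H' x y z (fun e he => h3 e (hH' he)) hlin'
    have hpi' : Pieces H' x y z π α β σ :=
      ⟨fun e he f hf => hpi.same e (hH' he) f (hH' hf),
        fun e he f hf => hpi.inc e (hH' he) f (hH' hf),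
        fun e he f hf => hpi.dec e (hH' he) f (hH' hf)⟩
    have hG : ¬ Grid H' x y z 2 3 s := by
      intro hG
      obtain ⟨T, hT, hTc, hTs⟩ := grid_sub hs H' x y z (fun e he => (h3 e (hH' he)).2) hG
      have := hsp T (hT.trans hH') hTc
      omega
    have hn0 : (0 : ℝ) < n := by linarith
    have hP0 : (0 : ℝ) < #Q := by linarith
    have hmain := hlin (Finset V) V V V P H' x y z π Q α β σ n
      ((#Q : ℝ) ^ (2 / 5 : ℝ) * (n : ℝ) ^ (-(1 / 5) : ℝ))
      ((#Q : ℝ) ^ (4 / 5 : ℝ) * (n : ℝ) ^ (11 / 10 : ℝ)) hL hpi' (fun e he => hQ e (hH' he))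
      hα hβ le_rfl le_rfl hn1 hG (by positivity) (by positivity) ?_ ?_
    · have h1 : (#H : ℝ) ≤ 3 * s * #H' := by exact_mod_cast hcard
      calc (#H : ℝ) ≤ 3 * s * #H' := h1
        _ ≤ 3 * s * (C * ((#Q : ℝ) ^ (4 / 5 : ℝ) * (n : ℝ) ^ (11 / 10 : ℝ))) :=
            mul_le_mul_of_nonneg_left hmain (by positivity)
        _ ≤ _ := by
            have h5 : 0 ≤ (s + 3 : ℝ) ^ 3 * ((#Q : ℝ) ^ (4 / 5 : ℝ) * (n : ℝ) ^ (11 / 10 : ℝ)) := by
              positivity
            linarith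
    · rw [mul_pow, ← Real.rpow_natCast ((#Q : ℝ) ^ (2 / 5 : ℝ)),
        ← Real.rpow_mul hP0.le, ← Real.rpow_natCast ((n : ℝ) ^ (-(1 / 5) : ℝ)),
        ← Real.rpow_mul hn0.le]
      norm_num
      rw [Real.rpow_neg_one, mul_assoc, inv_mul_cancel₀ hn0.ne', mul_one]
    · rw [mul_pow, mul_pow, ← Real.rpow_natCast ((#Q : ℝ) ^ (4 / 5 : ℝ)),
        ← Real.rpow_mul hP0.le, ← Real.rpow_natCast ((n : ℝ) ^ (11 / 10 : ℝ)),
        ← Real.rpow_mul hn0.le, ← Real.rpow_natCast ((#Q : ℝ) ^ (2 / 5 : ℝ)),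
        ← Real.rpow_mul hP0.le, ← Real.rpow_natCast ((n : ℝ) ^ (-(1 / 5) : ℝ)),
        ← Real.rpow_mul hn0.le, ← Real.rpow_natCast (n : ℝ)]
      rw [mul_left_comm, ← Real.rpow_add hn0]
      norm_num

/-- A set `A` of edges is a *monotone piece* with respect to two orders of the vertices (given by
the injective functions `α` and `β`) if its edges can be written as `{x e, v, z e}` with the same
vertex `v`, such that `z e` is a (weakly) increasing function of `x e`, or a (weakly) decreasing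
function of `x e`; here the vertices `x e` are ordered by `α` and the vertices `z e` by `β`. -/
def MonotonePiece {V : Type} [DecidableEq V] (α β : V → ℝ) (A : Finset (Finset V)) : Prop :=
  ∃ (v : V) (x z : Finset V → V), (∀ e ∈ A, e = {x e, v, z e}) ∧
    ((∀ e ∈ A, ∀ f ∈ A, α (x e) < α (x f) → β (z e) ≤ β (z f)) ∨
      (∀ e ∈ A, ∀ f ∈ A, α (x e) < α (x f) → β (z f) ≤ β (z e)))

/-- Concavity. -/
lemma sum_rpow_le {ι : Type} [Fintype ι] (f : ι → ℝ) (hf : ∀ i, 0 ≤ f i) :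
    ∑ i, f i ^ (4 / 5 : ℝ) ≤ (Fintype.card ι : ℝ) ^ (1 / 5 : ℝ) * (∑ i, f i) ^ (4 / 5 : ℝ) := by
  have h1 := Real.rpow_sum_le_const_mul_sum_rpow_of_nonneg (s := (univ : Finset ι))
    (f := fun i => f i ^ (4 / 5 : ℝ)) (p := 5 / 4) (by norm_num)
    (fun i _ => Real.rpow_nonneg (hf i) _)
  have h2 : ∀ i, (f i ^ (4 / 5 : ℝ)) ^ (5 / 4 : ℝ) = f i := by
    intro i
    rw [← Real.rpow_mul (hf i)]
    norm_num
  simp only [h2] at h1
  rw [card_univ] at h1
  have h3 : (0 : ℝ) ≤ ∑ i, f i ^ (4 / 5 : ℝ) := sum_nonneg fun i _ => Real.rpow_nonneg (hf i) _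
  have h4 : (0 : ℝ) ≤ ∑ i, f i := sum_nonneg fun i _ => hf i
  have h5 := Real.rpow_le_rpow (Real.rpow_nonneg h3 _) h1 (show (0 : ℝ) ≤ 4 / 5 by norm_num)
  rw [← Real.rpow_mul h3, Real.mul_rpow (by positivity) h4,
    ← Real.rpow_mul (Nat.cast_nonneg _)] at h5
  norm_num at h5
  norm_num
  exact h5

theorem bes_mono (k : ℕ) (hk : k = 21 ∨ 25 ≤ k) : ∃ C : ℝ, 0 < C ∧
    ∀ (V ι : Type) [Fintype V] [DecidableEq V] [Fintype ι] (α β : ι → V → ℝ)
      (H : Finset (Finset V)) (A : Finset (Finset (Finset V))),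
      (∀ i, Function.Injective (α i)) → (∀ i, Function.Injective (β i)) →
      (∀ e ∈ H, e.card = 3) →
      (∀ B ∈ A, ∃ i, MonotonePiece (α i) (β i) B) → (∀ e ∈ H, ∃ B ∈ A, e ∈ B) →
      (∀ S : Finset V, S.card = k → #{e ∈ H | e ⊆ S} < k - 3) →
      (#H : ℝ) ≤ C * (Fintype.card ι : ℝ) ^ (1 / 5 : ℝ) * (#A : ℝ) ^ (4 / 5 : ℝ) *
        (Fintype.card V : ℝ) ^ (11 / 10 : ℝ) := by
  classical
  obtain ⟨C, hC, h⟩ := bes_pi k hk
  refine ⟨C, hC, ?_⟩
  intro V ι _ _ _ α β H A hα hβ h3 hA hcov hfree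
  rcases H.eq_empty_or_nonempty with rfl | hH
  · simp only [card_empty, Nat.cast_zero]
    positivity
  obtain ⟨e0, he0⟩ := hH
  obtain ⟨B0, hB0, -⟩ := hcov e0 he0
  obtain ⟨i0, v0, x0, z0, hv0⟩ := hA B0 hB0
  -- the names of the edges
  have hA' : ∀ B : Finset (Finset V), ∃ (i : ι) (v : V) (x z : Finset V → V), B ∈ A →
      (∀ e ∈ B, e = {x e, v, z e}) ∧
      ((∀ e ∈ B, ∀ f ∈ B, α i (x e) < α i (x f) → β i (z e) ≤ β i (z f)) ∨
      (∀ e ∈ B, ∀ f ∈ B, α i (x e) < α i (x f) → β i (z f) ≤ β i (z e))) := by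
    intro B
    by_cases hB : B ∈ A
    · obtain ⟨i, v, x, z, h1⟩ := hA B hB
      exact ⟨i, v, x, z, fun _ => h1⟩
    · exact ⟨i0, v0, x0, z0, fun h => absurd h hB⟩
  choose τ v x z hp using hA'
  have hcov' : ∀ e : Finset V, ∃ B : Finset (Finset V), e ∈ H → B ∈ A ∧ e ∈ B := by
    intro e
    by_cases he : e ∈ H
    · obtain ⟨B, hB, heB⟩ := hcov e he
      exact ⟨B, fun _ => ⟨hB, heB⟩⟩
    · exact ⟨∅, fun h => absurd h he⟩
  choose π hπ using hcov'
  have hkey : ∀ i : ι, (#{e ∈ H | τ (π e) = i} : ℝ) ≤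
      C * ((#{B ∈ A | τ B = i} : ℝ) ^ (4 / 5 : ℝ) * (Fintype.card V : ℝ) ^ (11 / 10 : ℝ)) := by
    intro i
    refine h V (Finset (Finset V)) (α i) (β i) (fun e => x (π e) e) (fun e => v (π e))
      (fun e => z (π e) e) {e ∈ H | τ (π e) = i} π {B ∈ A | τ B = i}
      (fun B => ∀ e ∈ B, ∀ f ∈ B, α i (x B e) < α i (x B f) → β i (z B e) ≤ β i (z B f))
      (hα i) (hβ i) ?_ ?_ ?_ ?_
    · intro e he
      rw [mem_filter] at he
      exact ⟨h3 e he.1, (hp (π e) (hπ e he.1).1).1 e (hπ e he.1).2⟩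
    · refine ⟨?_, ?_, ?_⟩
      · intro e _ f _ hef
        simp only [hef]
      · intro e he f hf hef hs hlt
        rw [mem_filter] at he hf
        rw [← hef] at hlt ⊢
        exact hs e (hπ e he.1).2 f (hef ▸ (hπ f hf.1).2) hlt
      · intro e he f hf hef hs hlt
        rw [mem_filter] at he hf
        rw [← hef] at hlt ⊢
        have h5 := (hp (π e) (hπ e he.1).1).2
        rw [he.2] at h5
        rcases h5 with h5 | h5
        · exact absurd h5 hs
        · exact h5 e (hπ e he.1).2 f (hef ▸ (hπ f hf.1).2) hlt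
    · intro e he
      rw [mem_filter] at he ⊢
      exact ⟨(hπ e he.1).1, he.2⟩
    · intro S hS
      refine lt_of_le_of_lt (card_le_card ?_) (hfree S hS)
      intro e he
      rw [mem_filter, mem_filter] at he
      rw [mem_filter]
      exact ⟨he.1.1, he.2⟩
  have hsum1 : (#H : ℝ) = ∑ i : ι, (#{e ∈ H | τ (π e) = i} : ℝ) := by
    have := card_eq_sum_card_fiberwise (f := fun e => τ (π e)) (s := H) (t := univ)
      (fun _ _ => mem_univ _)
    exact_mod_cast this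
  have hsum2 : (#A : ℝ) = ∑ i : ι, (#{B ∈ A | τ B = i} : ℝ) := by
    have := card_eq_sum_card_fiberwise (f := fun B => τ B) (s := A) (t := univ)
      (fun _ _ => mem_univ _)
    exact_mod_cast this
  have h6 := sum_rpow_le (fun i : ι => (#{B ∈ A | τ B = i} : ℝ)) (fun i => Nat.cast_nonneg _)
  rw [← hsum2] at h6
  calc (#H : ℝ) = ∑ i : ι, (#{e ∈ H | τ (π e) = i} : ℝ) := hsum1
    _ ≤ ∑ i : ι, C * ((#{B ∈ A | τ B = i} : ℝ) ^ (4 / 5 : ℝ) *
        (Fintype.card V : ℝ) ^ (11 / 10 : ℝ)) := sum_le_sum fun i _ => hkey i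
    _ = C * (∑ i : ι, (#{B ∈ A | τ B = i} : ℝ) ^ (4 / 5 : ℝ)) *
        (Fintype.card V : ℝ) ^ (11 / 10 : ℝ) := by
        rw [← mul_sum, ← sum_mul, mul_assoc]
    _ ≤ C * ((Fintype.card ι : ℝ) ^ (1 / 5 : ℝ) * (#A : ℝ) ^ (4 / 5 : ℝ)) *
        (Fintype.card V : ℝ) ^ (11 / 10 : ℝ) := by
        refine mul_le_mul_of_nonneg_right ?_ (by positivity)
        exact mul_le_mul_of_nonneg_left h6 hC.le
    _ = _ := by ring

end Pool.Agent.T2H80.Bes
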