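import Pool.Agent.T2H80.Bes.Coarse

set_option autoImplicit false
set_option linter.unusedSectionVars false

open Finset

namespace Pool.Agent.T2H80.Bes

section

/-- Points of a net in a ball. -/
lemma net_count {V : Type} [Fintype V] [DecidableEq V] [PseudoMetricSpace V] {N : Finset V} {ρ R d b : ℝ} {n : ℝ}
    (hρ : 1 ≤ ρ) (hR : 0 ≤ R) (hd : 0 < d)
    (hN : ∀ u ∈ N, ∀ v ∈ N, u ≠ v → 2 * ρ < dist u v) (hn : (R + ρ) ^ d ≤ n)
    (hreg : ∀ v : V, ∀ r : ℝ, 1 ≤ r → r ^ d ≤ n →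
      r ^ d / b ≤ (#{w | dist w v ≤ r} : ℝ) ∧ (#{w | dist w v ≤ r} : ℝ) ≤ b * r ^ d) (u₀ : V) :
    (#{u ∈ N | dist u u₀ ≤ R} : ℝ) * (ρ ^ d / b) ≤ b * (R + ρ) ^ d := by
  have hρn : ρ ^ d ≤ n :=
    (Real.rpow_le_rpow (by linarith) (by linarith) hd.le).trans hn
  have h1 : ∑ u ∈ {u ∈ N | dist u u₀ ≤ R}, #{w | dist w u ≤ ρ} ≤ #{w | dist w u₀ ≤ R + ρ} := by
    rw [← card_biUnion]
    · refine card_le_card ?_
      intro w hw
      rw [mem_biUnion] at hw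
      obtain ⟨u, hu, hwu⟩ := hw
      rw [mem_filter] at hu hwu ⊢
      refine ⟨mem_univ _, ?_⟩
      have := dist_triangle w u u₀
      linarith [hu.2, hwu.2]
    · intro u hu v hv huv
      rw [Function.onFun, disjoint_left]
      intro w hwu hwv
      rw [mem_coe, mem_filter] at hu hv
      rw [mem_filter] at hwu hwv
      have h2 := hN u hu.1 v hv.1 huv
      have h3 := dist_triangle u w v
      rw [dist_comm u w] at h3
      linarith [hwu.2, hwv.2]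
  calc (#{u ∈ N | dist u u₀ ≤ R} : ℝ) * (ρ ^ d / b)
      = ∑ _u ∈ {u ∈ N | dist u u₀ ≤ R}, (ρ ^ d / b) := by rw [sum_const, nsmul_eq_mul]
    _ ≤ ∑ u ∈ {u ∈ N | dist u u₀ ≤ R}, (#{w | dist w u ≤ ρ} : ℝ) :=
        sum_le_sum fun u _ => (hreg u ρ hρ hρn).1
    _ ≤ (#{w | dist w u₀ ≤ R + ρ} : ℝ) := by exact_mod_cast h1
    _ ≤ b * (R + ρ) ^ d := (hreg u₀ (R + ρ) (by linarith) hn).2

lemma net_total {V : Type} [Fintype V] [DecidableEq V] [PseudoMetricSpace V] {N : Finset V} {ρ d b : ℝ} {n : ℕ}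
    (hρ : 1 ≤ ρ) (hN : ∀ u ∈ N, ∀ v ∈ N, u ≠ v → 2 * ρ < dist u v) (hn : ρ ^ d ≤ n)
    (hV : Fintype.card V ≤ n)
    (hreg : ∀ v : V, ∀ r : ℝ, 1 ≤ r → r ^ d ≤ n →
      r ^ d / b ≤ (#{w | dist w v ≤ r} : ℝ) ∧ (#{w | dist w v ≤ r} : ℝ) ≤ b * r ^ d) :
    (#N : ℝ) * (ρ ^ d / b) ≤ n := by
  have h1 : ∑ u ∈ N, #{w | dist w u ≤ ρ} ≤ n := by
    rw [← card_biUnion]
    · exact (card_le_univ _).trans hV
    · intro u hu v hv huv
      rw [Function.onFun, disjoint_left]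
      intro w hwu hwv
      rw [mem_filter] at hwu hwv
      have h2 := hN u hu v hv huv
      have h3 := dist_triangle u w v
      rw [dist_comm u w] at h3
      linarith [hwu.2, hwv.2]
  calc (#N : ℝ) * (ρ ^ d / b) = ∑ _u ∈ N, (ρ ^ d / b) := by rw [sum_const, nsmul_eq_mul]
    _ ≤ ∑ u ∈ N, (#{w | dist w u ≤ ρ} : ℝ) := sum_le_sum fun u _ => (hreg u ρ hρ hn).1
    _ ≤ n := by exact_mod_cast h1

lemma exists_net {V : Type} [Fintype V] [DecidableEq V] [PseudoMetricSpace V] {ρ : ℝ} (hρ : 0 ≤ ρ) :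
    ∃ (N : Finset V) (w : V → V), (∀ u ∈ N, ∀ v ∈ N, u ≠ v → 2 * ρ < dist u v) ∧
      (∀ v, w v ∈ N) ∧ ∀ v, dist v (w v) ≤ 2 * ρ := by
  obtain ⟨N, hN, hmax⟩ := exists_max_image ((univ : Finset V).powerset.filter fun A =>
    ∀ u ∈ A, ∀ v ∈ A, u ≠ v → 2 * ρ < dist u v) card ⟨∅, by simp⟩
  rw [mem_filter] at hN
  have h1 : ∀ v, ∃ w ∈ N, dist v w ≤ 2 * ρ := by
    intro v
    by_contra hcon
    push Not at hcon
    have hv : v ∉ N := by
      intro h
      have := hcon v h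
      rw [dist_self] at this
      linarith
    have h2 := hmax (insert v N) (by
      rw [mem_filter]
      refine ⟨mem_powerset.2 (subset_univ _), ?_⟩
      intro a ha b hb hab
      rw [mem_insert] at ha hb
      rcases ha with rfl | ha <;> rcases hb with rfl | hb
      · exact absurd rfl hab
      · exact hcon b hb
      · rw [dist_comm]; exact hcon a ha
      · exact hN.2 a ha b hb hab)
    rw [card_insert_of_notMem hv] at h2
    omega
  choose w hw1 hw2 using h1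
  exact ⟨N, w, hN.2, hw1, hw2⟩

end

/-- The number of pairs of classes. -/
lemma metric_meet {V : Type} [Fintype V] [DecidableEq V] [PseudoMetricSpace V] (δ : V → V → ℝ)
    (x y z : Finset V → V) (H : Finset (Finset V)) {ρ L d b : ℝ} {n : ℕ} (N : Finset V)
    (w : V → V) (q : V → ℕ) (hρ : 1 ≤ ρ) (hL : 1 ≤ L) (hd : 0 < d) (hb : 1 ≤ b)
    (hN : ∀ u ∈ N, ∀ v ∈ N, u ≠ v → 2 * ρ < dist u v) (hw1 : ∀ v, w v ∈ N)
    (hw2 : ∀ v, dist v (w v) ≤ 2 * ρ) (hq : Function.Injective q) (hV : Fintype.card V ≤ n)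
    (hn : ((4 * L ^ 2 + 5) * ρ) ^ d ≤ n)
    (hreg : ∀ v : V, ∀ r : ℝ, 1 ≤ r → r ^ d ≤ n →
      r ^ d / b ≤ (#{w | dist w v ≤ r} : ℝ) ∧ (#{w | dist w v ≤ r} : ℝ) ≤ b * r ^ d)
    (hLip : ∀ e ∈ H, ∀ f ∈ H, y e = y f →
      dist (x e) (x f) ≤ L * δ (z e) (z f) ∧ δ (z e) (z f) ≤ L * dist (x e) (x f)) :
    (#(({q ∈ H ×ˢ H | z q.1 = z q.2}).image
        (fun r => ((y r.1, y r.2), (q (w (x r.1)), q (w (x r.2)))))) : ℝ) ≤
      b ^ 3 * (4 * L ^ 2 + 5) ^ d * (n : ℝ) ^ 3 / ρ ^ d := by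
  have hρ0 : 0 < ρ := by linarith
  have hρd : 0 < ρ ^ d := Real.rpow_pos_of_pos hρ0 d
  have hL2 : 1 ≤ L ^ 2 := one_le_pow₀ hL
  have hb0 : 0 < b := by linarith
  set S := ({q ∈ H ×ˢ H | z q.1 = z q.2}).image
        (fun r => ((y r.1, y r.2), (q (w (x r.1)), q (w (x r.2))))) with hS
  set A : ℝ := b ^ 2 * (4 * L ^ 2 + 5) ^ d with hA
  have hA0 : 0 ≤ A := by positivity
  have h1 : #S ≤ ⌊A⌋₊ * #((univ : Finset (V × V)) ×ˢ N.image q) := by
    refine card_le_mul_card_image_of_maps_to (f := fun a => (a.1, a.2.1)) ?_ _ ?_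
    · intro a ha
      rw [hS, mem_image] at ha
      obtain ⟨r, _, rfl⟩ := ha
      rw [mem_product]
      exact ⟨mem_univ _, mem_image_of_mem _ (hw1 _)⟩
    · intro c _
      rcases (S.filter fun a => (a.1, a.2.1) = c).eq_empty_or_nonempty with h0 | ⟨a0, ha0⟩
      · rw [h0, card_empty]
        exact Nat.zero_le _
      rw [mem_filter, hS, mem_image] at ha0
      obtain ⟨⟨r0, hr0, rfl⟩, hc⟩ := ha0
      have h2 : #(S.filter fun a => (a.1, a.2.1) = c) ≤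
          #{u ∈ N | dist u (w (x r0.2)) ≤ (4 * L ^ 2 + 4) * ρ} := by
        have h3 : (S.filter fun a => (a.1, a.2.1) = c) ⊆
            ({u ∈ N | dist u (w (x r0.2)) ≤ (4 * L ^ 2 + 4) * ρ} : Finset V).image
              (fun u => (c.1, (c.2, q u))) := by
          intro a ha
          rw [mem_filter, hS, mem_image] at ha
          obtain ⟨⟨r, hr, rfl⟩, hc'⟩ := ha
          rw [mem_image]
          refine ⟨w (x r.2), ?_, ?_⟩
          · rw [mem_filter]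
            refine ⟨hw1 _, ?_⟩
            rw [← hc'] at hc
            simp only [Prod.mk.injEq] at hc
            rw [mem_filter, mem_product] at hr hr0
            have hww : w (x r0.1) = w (x r.1) := hq hc.2
            have e1 : dist (x r.1) (x r0.1) ≤ 4 * ρ := by
              have h4 := hw2 (x r.1)
              have h5 := hw2 (x r0.1)
              rw [hww] at h5
              have h6 := dist_triangle (x r.1) (w (x r.1)) (x r0.1)
              rw [dist_comm (w (x r.1)) (x r0.1)] at h6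
              linarith
            have e2 := (hLip r.1 hr.1.1 r0.1 hr0.1.1 hc.1.1.symm).2
            have e3 := (hLip r.2 hr.1.2 r0.2 hr0.1.2 hc.1.2.symm).1
            rw [← hr.2, ← hr0.2] at e3
            have e4 : dist (x r.2) (x r0.2) ≤ 4 * L ^ 2 * ρ := by
              have e5 : δ (z r.1) (z r0.1) ≤ L * (4 * ρ) :=
                e2.trans (mul_le_mul_of_nonneg_left e1 (by linarith))
              calc dist (x r.2) (x r0.2) ≤ L * δ (z r.1) (z r0.1) := e3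
                _ ≤ L * (L * (4 * ρ)) := mul_le_mul_of_nonneg_left e5 (by linarith)
                _ = _ := by ring
            have h4 := hw2 (x r.2)
            have h5 := hw2 (x r0.2)
            have h6 := dist_triangle (w (x r.2)) (x r.2) (w (x r0.2))
            have h7 := dist_triangle (x r.2) (x r0.2) (w (x r0.2))
            rw [dist_comm (w (x r.2)) (x r.2)] at h6
            linarith
          · rw [← hc']
        exact (card_le_card h3).trans card_image_le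
      refine h2.trans ?_
      rw [Nat.le_floor_iff hA0]
      have h3 := net_count (N := N) (ρ := ρ) (R := (4 * L ^ 2 + 4) * ρ) (d := d) (b := b)
        (n := (n : ℝ)) hρ (by positivity) hd hN (by
          have : (4 * L ^ 2 + 4) * ρ + ρ = (4 * L ^ 2 + 5) * ρ := by ring
          rw [this]; exact hn) hreg (w (x r0.2))
      have h4 : (4 * L ^ 2 + 4) * ρ + ρ = (4 * L ^ 2 + 5) * ρ := by ring
      rw [h4, Real.mul_rpow (by positivity) hρ0.le] at h3
      have h5 : 0 < ρ ^ d / b := by positivity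
      have h6 : b * ((4 * L ^ 2 + 5) ^ d * ρ ^ d) = A * (ρ ^ d / b) := by
        rw [hA]
        field_simp
      rw [h6] at h3
      exact le_of_mul_le_mul_right h3 h5
  have h2 : #((univ : Finset (V × V)) ×ˢ N.image q) ≤ n ^ 2 * #N := by
    rw [card_product, card_univ, Fintype.card_prod]
    refine Nat.mul_le_mul ?_ card_image_le
    rw [sq]
    exact Nat.mul_le_mul hV hV
  have hρn : ρ ^ d ≤ n := by
    refine (Real.rpow_le_rpow hρ0.le ?_ hd.le).trans hn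
    nlinarith
  have h3 := net_total (N := N) hρ hN hρn hV hreg
  have h4 : (#S : ℝ) ≤ A * ((n : ℝ) ^ 2 * #N) := by
    have h5 : (#S : ℝ) ≤ (⌊A⌋₊ : ℝ) * ((n : ℝ) ^ 2 * #N) := by
      exact_mod_cast h1.trans (Nat.mul_le_mul_left _ h2)
    exact h5.trans (mul_le_mul_of_nonneg_right (Nat.floor_le hA0) (by positivity))
  have h5 : (#N : ℝ) ≤ b * n / ρ ^ d := by
    rw [le_div_iff₀ hρd]
    have h6 : (#N : ℝ) * (ρ ^ d / b) * b ≤ n * b := mul_le_mul_of_nonneg_right h3 hb0.le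
    have h7 : (#N : ℝ) * (ρ ^ d / b) * b = #N * ρ ^ d := by field_simp
    rw [h7] at h6
    linarith
  calc (#S : ℝ) ≤ A * ((n : ℝ) ^ 2 * #N) := h4
    _ ≤ A * ((n : ℝ) ^ 2 * (b * n / ρ ^ d)) := by
        refine mul_le_mul_of_nonneg_left ?_ hA0
        exact mul_le_mul_of_nonneg_left h5 (by positivity)
    _ = _ := by rw [hA]; ring


theorem metric (k : ℕ) (hk : k = 21 ∨ 25 ≤ k) (d b L : ℝ) (hd : 0 < d) (hb : 1 ≤ b)
    (hL : 1 ≤ L) : ∃ C : ℝ, 0 < C ∧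
    ∀ (V : Type) [Fintype V] [DecidableEq V] [PseudoMetricSpace V] (δ : V → V → ℝ)
      (x y z : Finset V → V) (H : Finset (Finset V)),
      (∀ v : V, ∀ r : ℝ, 1 ≤ r → r ^ d ≤ Fintype.card V →
        r ^ d / b ≤ ({w | dist w v ≤ r}.ncard : ℝ) ∧ ({w | dist w v ≤ r}.ncard : ℝ) ≤ b * r ^ d) →
      (∀ e ∈ H, e.card = 3 ∧ e = {x e, y e, z e}) →
      (∀ e ∈ H, ∀ f ∈ H, y e = y f →
        dist (x e) (x f) ≤ L * δ (z e) (z f) ∧ δ (z e) (z f) ≤ L * dist (x e) (x f)) →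
      (∀ S : Finset V, S.card = k → #{e ∈ H | e ⊆ S} < k - 3) →
      (#H : ℝ) ≤ C * (Fintype.card V : ℝ) ^ (19 / 10 : ℝ) := by
  classical
  obtain ⟨C, hC, hcoarse⟩ := coarse k hk
  have hL2 : 1 ≤ L ^ 2 := one_le_pow₀ hL
  have hb0 : 0 < b := by linarith
  set A : ℝ := (4 * L ^ 2 + 5) ^ d with hA
  have hA1 : 1 ≤ A := Real.one_le_rpow (by linarith) hd.le
  have hA0 : 0 < A := by linarith
  set c1 : ℝ := (b ^ 3 * A) ^ (1 / 2 : ℝ) with hc1
  set c2 : ℝ := (b ^ 3 * A) ^ (1 / 3 : ℝ) * (b * 2 ^ d) ^ (2 / 3 : ℝ) with hc2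
  set c3 : ℝ := b * 2 ^ d with hc3
  refine ⟨A ^ 4 + C * (c1 + c2 + c3), by positivity, ?_⟩
  intro V _ _ _ δ x y z H hreg h3 hLip hfree
  obtain ⟨n, hn⟩ : ∃ n, n = Fintype.card V := ⟨_, rfl⟩
  rw [← hn] at hreg ⊢
  rcases H.eq_empty_or_nonempty with rfl | hH
  · rw [card_empty, Nat.cast_zero]
    positivity
  obtain ⟨e0, he0⟩ := hH
  have hn1 : 1 ≤ n := by
    rw [hn, Nat.succ_le_iff, Fintype.card_pos_iff]
    exact ⟨x e0⟩
  have hN : (1 : ℝ) ≤ n := by exact_mod_cast hn1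
  have hN0 : (0 : ℝ) < n := by linarith
  have hNr : (1 : ℝ) ≤ (n : ℝ) ^ (19 / 10 : ℝ) := Real.one_le_rpow hN (by norm_num)
  rcases lt_or_ge ((n : ℝ) ^ (4 / 5 : ℝ)) A with hsmall | hlarge
  · -- few vertices
    have h1 : #H ≤ n ^ 3 := by
      calc #H ≤ #((univ : Finset V).powersetCard 3) := by
            refine card_le_card fun e he => ?_
            rw [mem_powersetCard]
            exact ⟨subset_univ _, (h3 e he).1⟩
        _ = n.choose 3 := by rw [card_powersetCard, card_univ, hn]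
        _ ≤ n ^ 3 := Nat.choose_le_pow _ _
    have h2 : (n : ℝ) ^ 3 ≤ A ^ 4 := by
      have h4 : (n : ℝ) ^ 3 ≤ ((n : ℝ) ^ (4 / 5 : ℝ)) ^ 4 := by
        rw [← Real.rpow_natCast ((n : ℝ) ^ (4 / 5 : ℝ)), ← Real.rpow_mul hN0.le,
          ← Real.rpow_natCast (n : ℝ)]
        exact Real.rpow_le_rpow_of_exponent_le hN (by norm_num)
      exact h4.trans (pow_le_pow_left₀ (by positivity) hsmall.le 4)
    have h5 : (#H : ℝ) ≤ (n : ℝ) ^ 3 := by exact_mod_cast h1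
    have h6 : 0 ≤ C * (c1 + c2 + c3) := by positivity
    calc (#H : ℝ) ≤ (A ^ 4 + C * (c1 + c2 + c3)) * 1 := by linarith
      _ ≤ _ := mul_le_mul_of_nonneg_left hNr (by positivity)
  · -- the scale
    set ρ : ℝ := (n : ℝ) ^ (1 / (5 * d) : ℝ) with hρ
    have hρ1 : 1 ≤ ρ := Real.one_le_rpow hN (by positivity)
    have hρ0 : 0 < ρ := by linarith
    have hρd : ρ ^ d = (n : ℝ) ^ (1 / 5 : ℝ) := by
      rw [hρ, ← Real.rpow_mul hN0.le]
      congr 1
      field_simp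
    have hnn : (n : ℝ) ^ (4 / 5 : ℝ) * (n : ℝ) ^ (1 / 5 : ℝ) = n := by
      rw [← Real.rpow_add hN0]
      norm_num
    have hbig : ((4 * L ^ 2 + 5) * ρ) ^ d ≤ n := by
      rw [Real.mul_rpow (by positivity) hρ0.le, ← hA, hρd]
      calc A * (n : ℝ) ^ (1 / 5 : ℝ) ≤ (n : ℝ) ^ (4 / 5 : ℝ) * (n : ℝ) ^ (1 / 5 : ℝ) :=
            mul_le_mul_of_nonneg_right hlarge (by positivity)
        _ = n := hnn
    have hreg' : ∀ v : V, ∀ r : ℝ, 1 ≤ r → r ^ d ≤ n →
        r ^ d / b ≤ (#{w | dist w v ≤ r} : ℝ) ∧ (#{w | dist w v ≤ r} : ℝ) ≤ b * r ^ d := by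
      intro v r hr hrn
      have h1 := hreg v r hr hrn
      have h2 : ({w | dist w v ≤ r} : Set V).ncard = #{w | dist w v ≤ r} := by
        rw [← Set.ncard_coe_finset]
        congr 1
        ext w
        simp
      rw [h2] at h1
      exact h1
    obtain ⟨N, w, hN1, hw1, hw2⟩ := exists_net (V := V) hρ0.le
    let q : V → ℕ := fun v => (Fintype.equivFin V v).val
    have hq : Function.Injective q := by
      intro u v huv
      exact (Fintype.equivFin V).injective (Fin.ext huv)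
    have hclass : ∀ v, #{u | q (w u) = q (w v)} ≤ ⌊c3 * (n : ℝ) ^ (1 / 5 : ℝ)⌋₊ := by
      intro v
      rw [Nat.le_floor_iff (by positivity)]
      have h1 : #{u | q (w u) = q (w v)} ≤ #{u | dist u (w v) ≤ 2 * ρ} := by
        refine card_le_card ?_
        intro u hu
        rw [mem_filter] at hu ⊢
        refine ⟨mem_univ _, ?_⟩
        have h2 : w u = w v := hq hu.2
        rw [← h2]
        exact hw2 u
      have h2 : (2 * ρ) ^ d ≤ n := by
        refine (Real.rpow_le_rpow (by positivity) ?_ hd.le).trans hbig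
        nlinarith
      have h3 := (hreg' (w v) (2 * ρ) (by linarith) h2).2
      rw [Real.mul_rpow (by norm_num) hρ0.le, hρd] at h3
      calc (#{u | q (w u) = q (w v)} : ℝ) ≤ #{u | dist u (w v) ≤ 2 * ρ} := by exact_mod_cast h1
        _ ≤ b * (2 ^ d * (n : ℝ) ^ (1 / 5 : ℝ)) := h3
        _ = _ := by rw [hc3]; ring
    have hM := metric_meet δ x y z H N w q hρ1 hL hd hb hN1 hw1 hw2 hq hn.ge hbig hreg' hLip
    have hmain := hcoarse V x y z H (fun v => q (w v)) _ _ h3 hfree hclass rfl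
    rw [← hn] at hmain
    set M : ℕ := #(({q ∈ H ×ˢ H | z q.1 = z q.2}).image
        (fun r => ((y r.1, y r.2), (q (w (x r.1)), q (w (x r.2)))))) with hMdef
    set K : ℕ := ⌊c3 * (n : ℝ) ^ (1 / 5 : ℝ)⌋₊ with hKdef
    have hK1 : (K : ℝ) ≤ c3 * (n : ℝ) ^ (1 / 5 : ℝ) := Nat.floor_le (by positivity)
    have hM1 : (M : ℝ) ≤ (b ^ 3 * A) * (n : ℝ) ^ (14 / 5 : ℝ) := by
      refine hM.trans (le_of_eq ?_)
      rw [hρd, ← hA]
      have h1 : (n : ℝ) ^ 3 = (n : ℝ) ^ (14 / 5 : ℝ) * (n : ℝ) ^ (1 / 5 : ℝ) := by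
        rw [← Real.rpow_add hN0, ← Real.rpow_natCast]
        norm_num
      rw [h1]
      have h2 : (n : ℝ) ^ (1 / 5 : ℝ) ≠ 0 := by positivity
      field_simp
    have t1 : ((n : ℝ) * M) ^ (1 / 2 : ℝ) ≤ c1 * (n : ℝ) ^ (19 / 10 : ℝ) := by
      have h1 : (n : ℝ) * M ≤ (b ^ 3 * A) * (n : ℝ) ^ (19 / 5 : ℝ) := by
        calc (n : ℝ) * M ≤ n * ((b ^ 3 * A) * (n : ℝ) ^ (14 / 5 : ℝ)) :=
              mul_le_mul_of_nonneg_left hM1 hN0.le
          _ = (b ^ 3 * A) * ((n : ℝ) ^ (1 : ℝ) * (n : ℝ) ^ (14 / 5 : ℝ)) := by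
              rw [Real.rpow_one]; ring
          _ = _ := by rw [← Real.rpow_add hN0]; norm_num
      refine (Real.rpow_le_rpow (by positivity) h1 (by norm_num)).trans (le_of_eq ?_)
      rw [Real.mul_rpow (by positivity) (by positivity), ← Real.rpow_mul hN0.le, hc1]
      norm_num
    have t2 : (n : ℝ) ^ (5 / 6 : ℝ) * (M : ℝ) ^ (1 / 3 : ℝ) * (K : ℝ) ^ (2 / 3 : ℝ) ≤
        c2 * (n : ℝ) ^ (19 / 10 : ℝ) := by
      have h1 := Real.rpow_le_rpow (Nat.cast_nonneg M) hM1 (show (0 : ℝ) ≤ 1 / 3 by norm_num)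
      have h2 := Real.rpow_le_rpow (Nat.cast_nonneg K) hK1 (show (0 : ℝ) ≤ 2 / 3 by norm_num)
      rw [Real.mul_rpow (by positivity) (by positivity), ← Real.rpow_mul hN0.le] at h1 h2
      calc (n : ℝ) ^ (5 / 6 : ℝ) * (M : ℝ) ^ (1 / 3 : ℝ) * (K : ℝ) ^ (2 / 3 : ℝ)
          ≤ (n : ℝ) ^ (5 / 6 : ℝ) * ((b ^ 3 * A) ^ (1 / 3 : ℝ) *
            (n : ℝ) ^ (14 / 5 * (1 / 3) : ℝ)) * (c3 ^ (2 / 3 : ℝ) *
            (n : ℝ) ^ (1 / 5 * (2 / 3) : ℝ)) := by
            refine mul_le_mul ?_ h2 (by positivity) (by positivity)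
            exact mul_le_mul_of_nonneg_left h1 (by positivity)
        _ = c2 * ((n : ℝ) ^ (5 / 6 : ℝ) * (n : ℝ) ^ (14 / 5 * (1 / 3) : ℝ) *
            (n : ℝ) ^ (1 / 5 * (2 / 3) : ℝ)) := by rw [hc2, hc3]; ring
        _ = _ := by
            rw [← Real.rpow_add hN0, ← Real.rpow_add hN0]
            norm_num
    have t3 : (n : ℝ) * K ≤ c3 * (n : ℝ) ^ (19 / 10 : ℝ) := by
      calc (n : ℝ) * K ≤ n * (c3 * (n : ℝ) ^ (1 / 5 : ℝ)) :=
            mul_le_mul_of_nonneg_left hK1 hN0.le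
        _ = c3 * ((n : ℝ) ^ (1 : ℝ) * (n : ℝ) ^ (1 / 5 : ℝ)) := by rw [Real.rpow_one]; ring
        _ = c3 * (n : ℝ) ^ (1 + 1 / 5 : ℝ) := by rw [← Real.rpow_add hN0]
        _ ≤ c3 * (n : ℝ) ^ (19 / 10 : ℝ) := by
            refine mul_le_mul_of_nonneg_left ?_ (by positivity)
            exact Real.rpow_le_rpow_of_exponent_le hN (by norm_num)
    calc (#H : ℝ) ≤ C * (((n : ℝ) * M) ^ (1 / 2 : ℝ) +
          (n : ℝ) ^ (5 / 6 : ℝ) * (M : ℝ) ^ (1 / 3 : ℝ) * (K : ℝ) ^ (2 / 3 : ℝ) + n * K) := hmain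
      _ ≤ C * (c1 * (n : ℝ) ^ (19 / 10 : ℝ) + c2 * (n : ℝ) ^ (19 / 10 : ℝ) +
          c3 * (n : ℝ) ^ (19 / 10 : ℝ)) := by
          refine mul_le_mul_of_nonneg_left ?_ hC.le
          exact add_le_add (add_le_add t1 t2) t3
      _ = C * (c1 + c2 + c3) * (n : ℝ) ^ (19 / 10 : ℝ) := by ring
      _ ≤ _ := by
          refine mul_le_mul_of_nonneg_right ?_ (by positivity)
          have : 0 ≤ A ^ 4 := by positivity
          linarith

end Pool.Agent.T2H80.Bes
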