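import Pool.Agent.T2H80.Bes.Lower

set_option autoImplicit false
set_option linter.unusedSectionVars false

open Finset

namespace Pool.Agent.T2H80.Bes

variable {E X Y Z P : Type*} [DecidableEq E] [DecidableEq X] [DecidableEq Y] [DecidableEq Z]
  [DecidableEq P] {H : Finset E} {x : E → X} {y : E → Y} {z : E → Z} {π : E → P} {p : X → ℕ}

/-- The edges of one piece have the same second coordinate, and the third one is a monotone function
of the first one. -/
structure Pieces (H : Finset E) (x : E → X) (y : E → Y) (z : E → Z) (π : E → P) (α : X → ℝ)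
    (β : Z → ℝ) (σ : P → Prop) : Prop where
  same : ∀ e ∈ H, ∀ f ∈ H, π e = π f → y e = y f
  inc : ∀ e ∈ H, ∀ f ∈ H, π e = π f → σ (π e) → α (x e) < α (x f) → β (z e) ≤ β (z f)
  dec : ∀ e ∈ H, ∀ f ∈ H, π e = π f → ¬ σ (π e) → α (x e) < α (x f) → β (z f) ≤ β (z e)

open Classical in
lemma cells_le {r R : ℕ} {α : X → ℝ} {β : Z → ℝ} {σ : P → Prop} (hL : Lin H x y z)
    (hα : Function.Injective α) (hβ : Function.Injective β) (hP : Pieces H x y z π α β σ)
    (hp : ∀ a b, α a < α b → p a ≤ p b) (hR : ∀ a, p a ≤ R) (κ : Fin r → P) :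
    #(((Inc H x z p r).filter (fun f => (fun i => π (f i)) = κ)).image
      (fun f i => p (x (f i)))) ≤ r * R + 1 := by
  rw [← card_range (r * R + 1)]
  have key1 : ∀ f ∈ (Inc H x z p r).filter (fun f => (fun i => π (f i)) = κ),
      ∀ g ∈ (Inc H x z p r).filter (fun f => (fun i => π (f i)) = κ),
      (∀ i, β (z (f i)) < β (z (g i))) → ∀ i,
        (if σ (κ i) then p (x (f i)) else R - p (x (f i))) ≤
        (if σ (κ i) then p (x (g i)) else R - p (x (g i))) := by
    intro f hf g hg hlt i
    rw [mem_filter, mem_Inc] at hf hg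
    have hpf : π (f i) = κ i := congrFun hf.2 i
    have hpg : π (g i) = κ i := congrFun hg.2 i
    have hfg : π (g i) = π (f i) := hpg.trans hpf.symm
    split_ifs with hs
    · -- increasing
      have h1 : ¬ α (x (g i)) < α (x (f i)) := fun h =>
        absurd (hP.inc _ (hg.1.1 i) _ (hf.1.1 i) hfg (hpg ▸ hs) h) (not_le.2 (hlt i))
      rcases (not_lt.1 h1).lt_or_eq with h2 | h2
      · exact hp _ _ h2
      · rw [hα h2]
    · have h1 : ¬ α (x (f i)) < α (x (g i)) := fun h =>
        absurd (hP.dec _ (hf.1.1 i) _ (hg.1.1 i) hfg.symm (hpf ▸ hs) h) (not_le.2 (hlt i))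
      have h3 : p (x (g i)) ≤ p (x (f i)) := by
        rcases (not_lt.1 h1).lt_or_eq with h2 | h2
        · exact hp _ _ h2
        · rw [hα h2]
      omega
  have key2 : ∀ f ∈ (Inc H x z p r).filter (fun f => (fun i => π (f i)) = κ),
      ∀ g ∈ (Inc H x z p r).filter (fun f => (fun i => π (f i)) = κ),
      (∀ i, β (z (f i)) < β (z (g i))) →
      (∑ i, (if σ (κ i) then p (x (f i)) else R - p (x (f i)))) =
        (∑ i, (if σ (κ i) then p (x (g i)) else R - p (x (g i)))) → ∀ i, p (x (f i)) = p (x (g i)) := by
    intro f hf g hg hlt hsum i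
    have h1 := (sum_eq_sum_iff_of_le (fun i _ => key1 f hf g hg hlt i)).1 hsum i (mem_univ i)
    have h2 := hR (x (f i))
    have h3 := hR (x (g i))
    split_ifs at h1 with hs
    · exact h1
    · omega
  refine Finset.card_le_card_of_injOn
    (fun c => ∑ i, (if σ (κ i) then c i else R - c i)) ?_ ?_
  · intro c hc
    rw [mem_coe, mem_image] at hc
    obtain ⟨f, _, rfl⟩ := hc
    rw [mem_coe, mem_range]
    have : ∑ i : Fin r, (if σ (κ i) then p (x (f i)) else R - p (x (f i))) ≤ ∑ _i : Fin r, R := by
      refine sum_le_sum fun i _ => ?_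
      have := hR (x (f i))
      split_ifs <;> omega
    simp only [sum_const, card_univ, Fintype.card_fin, smul_eq_mul] at this
    exact Nat.lt_succ_of_le this
  · intro c hc c' hc' hsum
    rw [mem_coe, mem_image] at hc hc'
    obtain ⟨f, hf, rfl⟩ := hc
    obtain ⟨g, hg, rfl⟩ := hc'
    simp only at hsum
    rcases Nat.eq_zero_or_pos r with rfl | hr
    · funext i; exact i.elim0
    · have hf' := hf
      have hg' := hg
      rw [mem_filter, mem_Inc] at hf' hg'
      have i0 : Fin r := ⟨0, hr⟩
      rcases lt_trichotomy (β (z (f i0))) (β (z (g i0))) with h | h | h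
      · funext i
        refine key2 f hf g hg (fun i => ?_) hsum i
        rw [hf'.1.2.1 i i0, hg'.1.2.1 i i0]; exact h
      · have hz := hβ h
        funext i
        have : f i = g i := by
          refine hL.yz _ (hf'.1.1 i) _ (hg'.1.1 i) ?_ ?_
          · exact hP.same _ (hf'.1.1 i) _ (hg'.1.1 i)
              ((congrFun hf'.2 i).trans (congrFun hg'.2 i).symm)
          · rw [hf'.1.2.1 i i0, hg'.1.2.1 i i0, hz]
        simp only [this]
      · funext i
        refine (key2 g hg f hf (fun i => ?_) hsum.symm i).symm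
        rw [hf'.1.2.1 i i0, hg'.1.2.1 i i0]; exact h

/-- A partition of a finite set with an order into intervals with at most `K` elements. -/
lemma exists_classes [Fintype X] (α : X → ℝ) (hα : Function.Injective α) {n K : ℕ}
    (hX : Fintype.card X ≤ n) (hK : 1 ≤ K) :
    ∃ p : X → ℕ, (∀ a b, α a < α b → p a ≤ p b) ∧ (∀ a, p a ≤ n / K) ∧
      ∀ a, #{b | p b = p a} ≤ K := by
  classical
  set rk : X → ℕ := fun a => #{b | α b < α a} with hrk
  have hmono : ∀ a b, α a < α b → rk a < rk b := by
    intro a b hab
    refine card_lt_card ?_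
    rw [ssubset_iff_of_subset]
    · exact ⟨a, by simp [hab], by simp⟩
    · intro c hc
      simp only [mem_filter, mem_univ, true_and] at hc ⊢
      exact hc.trans hab
  have hinj : Function.Injective rk := by
    intro a b hab
    rcases lt_trichotomy (α a) (α b) with h | h | h
    · exact absurd hab (hmono a b h).ne
    · exact hα h
    · exact absurd hab (hmono b a h).ne'
  refine ⟨fun a => rk a / K, ?_, ?_, ?_⟩
  · intro a b hab
    exact Nat.div_le_div_right (hmono a b hab).le
  · intro a
    refine Nat.div_le_div_right ?_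
    exact (card_le_univ _).trans hX
  · intro a
    have h1 : #{b | rk b / K = rk a / K} ≤ #(Ico (rk a / K * K) (rk a / K * K + K)) := by
      refine Finset.card_le_card_of_injOn rk ?_ ?_
      · intro b hb
        simp only [coe_filter, mem_univ, true_and, Set.mem_ofPred_eq] at hb
        rw [mem_coe, mem_Ico, ← hb]
        refine ⟨Nat.div_mul_le_self _ _, ?_⟩
        have := Nat.lt_div_mul_add (a := rk b) (b := K) hK
        exact this
      · intro b _ c _ h
        exact hinj h
    simpa using h1

end Pool.Agent.T2H80.Bes
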