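import Pool.Agent.T2H80.Bes.Grids

set_option autoImplicit false
set_option linter.unusedSectionVars false

open Finset

namespace Pool.Agent.T2H80.Bes

/-- A two-colouring that separates a quarter of the pairs. -/
lemma exists_colour {ι X : Type*} [Fintype X] [DecidableEq X] (S : Finset ι) (a b : ι → X)
    (hab : ∀ i ∈ S, a i ≠ b i) :
    ∃ p : X → ℕ, #S ≤ 4 * #{i ∈ S | p (a i) = 0 ∧ p (b i) = 1} := by
  classical
  by_contra hcon
  push Not at hcon
  -- sum over all colourings
  have h1 : ∑ c : X → Bool, 4 * #{i ∈ S | c (a i) = false ∧ c (b i) = true} <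
      ∑ _c : X → Bool, #S := by
    refine sum_lt_sum_of_nonempty ⟨fun _ => false, mem_univ _⟩ ?_
    intro c _
    have h2 := hcon (fun v => if c v = true then 1 else 0)
    refine lt_of_le_of_lt (Nat.mul_le_mul_left 4 (card_le_card ?_)) h2
    intro i hi
    rw [mem_filter] at hi ⊢
    refine ⟨hi.1, ?_, ?_⟩
    · simp [hi.2.1]
    · simp [hi.2.2]
  have h3 : ∀ i ∈ S, Fintype.card (X → Bool) ≤
      4 * #{c : X → Bool | c (a i) = false ∧ c (b i) = true} := by
    intro i hi
    have hne := hab i hi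
    have h4 : #(univ : Finset (X → Bool)) ≤ #((univ : Finset (Bool × Bool)) ×ˢ
        ({c : X → Bool | c (a i) = false ∧ c (b i) = true} : Finset (X → Bool))) := by
      refine Finset.card_le_card_of_injOn (fun c => ((c (a i), c (b i)),
        Function.update (Function.update c (a i) false) (b i) true)) ?_ ?_
      · intro c _
        simp only [coe_product, coe_univ, Set.mem_prod, Set.mem_univ, true_and, coe_filter,
          mem_univ, Set.mem_ofPred_eq]
        constructor
        · rw [Function.update_of_ne hne, Function.update_self]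
        · rw [Function.update_self]
      · intro c _ c' _ h
        simp only [Prod.mk.injEq] at h
        obtain ⟨⟨h5, h6⟩, h7⟩ := h
        funext v
        by_cases hv1 : v = a i
        · rw [hv1]; exact h5
        by_cases hv2 : v = b i
        · rw [hv2]; exact h6
        have h8 := congrFun h7 v
        rw [Function.update_of_ne hv2, Function.update_of_ne hv1, Function.update_of_ne hv2,
          Function.update_of_ne hv1] at h8
        exact h8
    rw [card_product, card_univ, card_univ] at h4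
    simpa using h4
  have h5 : ∑ c : X → Bool, 4 * #{i ∈ S | c (a i) = false ∧ c (b i) = true} =
      ∑ i ∈ S, 4 * #{c : X → Bool | c (a i) = false ∧ c (b i) = true} := by
    rw [← mul_sum, ← mul_sum]
    congr 1
    simp only [card_filter]
    rw [sum_comm]
  rw [h5] at h1
  have h6 := (sum_le_sum h3).trans_lt h1
  simp only [sum_const, smul_eq_mul, card_univ] at h6
  rw [mul_comm] at h6
  exact lt_irrefl _ h6

section

variable {E X Y Z Γ : Type*} [DecidableEq E] [DecidableEq X] [DecidableEq Y] [DecidableEq Z]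
  [DecidableEq Γ] {H : Finset E} {x : E → X} {y : E → Y} {z : E → Z} {p : X → ℕ}

/-- Pairs of elements of `H` with the same third coordinate, which follow the labels. -/
def Fol (H : Finset E) (x : E → X) (y : E → Y) (z : E → Z) (p : X → ℕ) (lab : Y → Y → Γ)
    (φ : Γ → X → Option X) : Finset (Fin 2 → E) :=
  {f ∈ Fintype.piFinset (fun _ : Fin 2 => H) | z (f 0) = z (f 1) ∧ p (x (f 0)) = 0 ∧
    p (x (f 1)) = 1 ∧ φ (lab (y (f 0)) (y (f 1))) (x (f 0)) = some (x (f 1))}

lemma mem_Fol {lab : Y → Y → Γ} {φ : Γ → X → Option X} {f : Fin 2 → E} :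
    f ∈ Fol H x y z p lab φ ↔ (∀ i, f i ∈ H) ∧ z (f 0) = z (f 1) ∧ p (x (f 0)) = 0 ∧
    p (x (f 1)) = 1 ∧ φ (lab (y (f 0)) (y (f 1))) (x (f 0)) = some (x (f 1)) := by
  simp [Fol, Fintype.mem_piFinset]

lemma Fol_sub {lab : Y → Y → Γ} {φ : Γ → X → Option X} {f : Fin 2 → E}
    (hf : f ∈ Fol H x y z p lab φ) : f ∈ Inc H x z p 2 := by
  rw [mem_Fol] at hf
  rw [mem_Inc]
  refine ⟨hf.1, ?_, ?_⟩
  · intro i j
    fin_cases i <;> fin_cases j <;> simp [hf.2.1]
  · intro i j h
    simp only at h
    fin_cases i <;> fin_cases j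
    · rfl
    · simp only [Fin.zero_eta, Fin.mk_one] at h
      rw [hf.2.2.1, hf.2.2.2.1] at h
      exact absurd h (by norm_num)
    · simp only [Fin.zero_eta, Fin.mk_one] at h
      rw [hf.2.2.1, hf.2.2.2.1] at h
      exact absurd h (by norm_num)
    · rfl

lemma count_fol [Fintype X] [Fintype Y] [Fintype Γ] {s t n T : ℕ} (hL : Lin H x y z)
    (lab : Y → Y → Γ) (φ : Γ → X → Option X) (hX : Fintype.card X ≤ n) (hY : Fintype.card Y ≤ n)
    (hT : ∑ g : Γ, #{v | φ g v ≠ none} ≤ T) (hG : ¬ Grid H x y z 2 (s + 1) t) :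
    (#(Fol H x y z p lab φ) - s * n ^ 2) ^ (s + 1) ≤ n ^ (2 * s) * (t * (n ^ s * T)) := by
  classical
  set J := Fol H x y z p lab φ with hJ
  set A := J.image (key x y p 2) with hA
  set D : (Fin 2 → Y) × (Fin 2 → ℕ) → Finset (Fin 2 → E) := fun a =>
    {f ∈ J | key x y p 2 f = a} with hD
  have hAc : #A ≤ n ^ 2 := by
    have h1 : #A ≤ #(univ : Finset (Fin 2 → Y)) := by
      refine Finset.card_le_card_of_injOn (fun a => a.1) (fun _ _ => mem_coe.2 (mem_univ _)) ?_
      intro a ha b hb hab
      rw [mem_coe, hA, mem_image] at ha hb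
      obtain ⟨f, hf, rfl⟩ := ha
      obtain ⟨g, hg, rfl⟩ := hb
      rw [hJ, mem_Fol] at hf hg
      refine Prod.ext hab ?_
      funext i
      fin_cases i
      · exact hf.2.2.1.trans hg.2.2.1.symm
      · exact hf.2.2.2.1.trans hg.2.2.2.1.symm
    refine h1.trans ?_
    simp only [card_univ, Fintype.card_fun, Fintype.card_fin]
    exact Nat.pow_le_pow_left hY 2
  have hsum : #J = ∑ a ∈ A, #(D a) := card_eq_sum_card_image (key x y p 2) J
  have h1 := power_mean A (fun a => #(D a)) s s
  rw [← hsum] at h1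
  have h1' : (#J - s * n ^ 2) ^ (s + 1) ≤ (#J - s * #A) ^ (s + 1) := by
    refine Nat.pow_le_pow_left ?_ _
    exact Nat.sub_le_sub_left (Nat.mul_le_mul_left _ hAc) _
  refine h1'.trans (h1.trans ?_)
  refine Nat.mul_le_mul ?_ ?_
  · rw [pow_mul]
    exact Nat.pow_le_pow_left hAc s
  -- injective families
  set S : Finset (Fin (s + 1) → Fin 2 → E) := A.biUnion fun a =>
    {F ∈ Fintype.piFinset (fun _ : Fin (s + 1) => D a) | Function.Injective F} with hS
  have h2 : ∑ a ∈ A, (#(D a) - s) ^ (s + 1) ≤ #S := by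
    rw [hS, card_biUnion]
    · refine sum_le_sum fun a _ => ?_
      rw [card_inj]
      have := Nat.pow_sub_le_descFactorial (#(D a)) (s + 1)
      rwa [Nat.add_sub_add_right] at this
    · intro a _ b _ hab
      rw [Function.onFun, disjoint_left]
      intro F hF hF'
      simp only [mem_filter, Fintype.mem_piFinset, hD] at hF hF'
      exact hab ((hF.1 0).2.symm.trans (hF'.1 0).2)
  refine h2.trans ?_
  have hmemS : ∀ F ∈ S, (∀ k, F k ∈ J) ∧ Function.Injective F ∧
      ∀ k k', key x y p 2 (F k) = key x y p 2 (F k') := by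
    intro F hF
    simp only [hS, mem_biUnion, mem_filter, Fintype.mem_piFinset, hD] at hF
    obtain ⟨a, _, h3, h4⟩ := hF
    exact ⟨fun k => (h3 k).1, h4, fun k k' => (h3 k).2.trans (h3 k').2.symm⟩
  set W : Finset (Γ × (Fin (s + 1) → X)) := {w | ∀ k, φ w.1 (w.2 k) ≠ none} with hW
  have h5 : #S ≤ t * #W := by
    refine card_le_mul_card_image_of_maps_to
      (f := fun F => (lab (y (F 0 0)) (y (F 0 1)), fun k => x (F k 0))) ?_ t ?_
    · intro F hF
      obtain ⟨h3, _, h4⟩ := hmemS F hF
      simp only [hW, mem_filter, mem_univ, true_and]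
      intro k
      have h6 := h3 k
      rw [hJ, mem_Fol] at h6
      have h7 : ∀ i, y (F k i) = y (F 0 i) := fun i => congrFun (congrArg Prod.fst (h4 k 0)) i
      rw [← h7, ← h7, h6.2.2.2.2]
      exact Option.some_ne_none _
    · intro w _
      by_contra hcon
      push Not at hcon
      have h6 : t ≤ #{F ∈ S | (lab (y (F 0 0)) (y (F 0 1)), fun k => x (F k 0)) = w} := hcon.le
      obtain ⟨S', hS', hcard⟩ := exists_subset_card_eq h6
      have e := (S'.equivFinOfCardEq hcard).symm
      apply hG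
      have h7 : ∀ j, (e j).1 ∈ S ∧
          (lab (y ((e j).1 0 0)) (y ((e j).1 0 1)), fun k => x ((e j).1 k 0)) = w := fun j =>
        mem_filter.1 (hS' (e j).2)
      have h8 : ∀ j k, φ w.1 (w.2 k) = some (x ((e j).1 k 1)) := by
        intro j k
        obtain ⟨h3, _, h4⟩ := hmemS _ (h7 j).1
        have h9 := h3 k
        rw [hJ, mem_Fol] at h9
        have h10 : ∀ i, y ((e j).1 k i) = y ((e j).1 0 i) := fun i =>
          congrFun (congrArg Prod.fst (h4 k 0)) i
        rw [← h9.2.2.2.2, h10, h10, ← (h7 j).2]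
      refine grid_of (π := y) (p := p) hL (fun _ _ _ _ h => h) (fun j => (e j).1) ?_ ?_ ?_ ?_ ?_
      · intro j j' h
        exact e.injective (Subtype.ext h)
      · intro j k
        exact Fol_sub ((hmemS _ (h7 j).1).1 k)
      · intro j
        exact (hmemS _ (h7 j).1).2.1
      · intro j
        exact (hmemS _ (h7 j).1).2.2
      · intro j j' k i
        fin_cases i
        · have h9 := (congrArg Prod.snd (h7 j).2).trans (congrArg Prod.snd (h7 j').2).symm
          exact congrFun h9 k
        · have h9 := (h8 j k).symm.trans (h8 j' k)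
          exact Option.some.inj h9
  refine h5.trans (Nat.mul_le_mul_left _ ?_)
  -- the number of tuples of points
  have h6 : #W ≤ #((univ : Finset Γ).sigma
      (fun g => Fintype.piFinset (fun _ : Fin (s + 1) => ({v : X | φ g v ≠ none} : Finset X)))) := by
    refine Finset.card_le_card_of_injOn (fun w => ⟨w.1, w.2⟩) ?_ ?_
    · intro w hw
      simp only [hW, coe_filter, mem_univ, true_and, Set.mem_ofPred_eq] at hw
      simp only [mem_coe, mem_sigma, mem_univ, true_and, Fintype.mem_piFinset, mem_filter]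
      exact hw
    · intro w _ w' _ h
      simp only [Sigma.mk.injEq, heq_eq_eq] at h
      exact Prod.ext h.1 h.2
  refine h6.trans ?_
  rw [card_sigma]
  calc ∑ g : Γ, #(Fintype.piFinset (fun _ : Fin (s + 1) => ({v : X | φ g v ≠ none} : Finset X)))
      ≤ ∑ g : Γ, n ^ s * #{v | φ g v ≠ none} := by
        refine sum_le_sum fun g _ => ?_
        rw [Fintype.card_piFinset_const, pow_succ]
        refine Nat.mul_le_mul_right _ (Nat.pow_le_pow_left ?_ s)
        exact (card_le_univ _).trans hX
    _ = n ^ s * ∑ g : Γ, #{v | φ g v ≠ none} := by rw [mul_sum]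
    _ ≤ n ^ s * T := Nat.mul_le_mul_left _ hT

/-- The number of pairs which follow the labels. -/
lemma fol_lower [Fintype X] [Fintype Z] {n : ℕ} (hL : Lin H x y z) (hZ : Fintype.card Z ≤ n)
    (lab : Y → Y → Γ) (φ : Γ → X → Option X) :
    ∃ p : X → ℕ, #H ^ 2 ≤ n * (#H + #{q ∈ H ×ˢ H | z q.1 = z q.2 ∧
      φ (lab (y q.1) (y q.2)) (x q.1) ≠ some (x q.2)} + 4 * #(Fol H x y z p lab φ)) := by
  classical
  set S : Finset (E × E) := {q ∈ H ×ˢ H | z q.1 = z q.2 ∧ q.1 ≠ q.2 ∧
    φ (lab (y q.1) (y q.2)) (x q.1) = some (x q.2)} with hS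
  obtain ⟨p, hp⟩ := exists_colour S (fun q => x q.1) (fun q => x q.2) (by
    intro q hq h
    rw [hS, mem_filter, mem_product] at hq
    exact hq.2.2.1 (hL.xz _ hq.1.1 _ hq.1.2 h hq.2.1))
  refine ⟨p, ?_⟩
  set J : Finset (E × E) := {q ∈ H ×ˢ H | z q.1 = z q.2} with hJ
  have h1 : #H ^ 2 ≤ n * #J := by
    have h2 := power_mean (univ : Finset Z) (fun ζ => #{e ∈ H | z e = ζ}) 0 1
    simp only [Nat.zero_mul, Nat.sub_zero] at h2
    rw [← card_eq_sum_card_fiberwise (f := z) (s := H) (t := univ) (fun _ _ => mem_univ _)] at h2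
    refine h2.trans ?_
    rw [pow_one]
    refine Nat.mul_le_mul (by simpa using hZ) ?_
    have h3 : ∑ ζ : Z, #{e ∈ H | z e = ζ} ^ (1 + 1) =
        #(univ.biUnion fun ζ : Z => {e ∈ H | z e = ζ} ×ˢ {e ∈ H | z e = ζ}) := by
      rw [card_biUnion]
      · refine sum_congr rfl fun ζ _ => ?_
        rw [card_product, sq]
      · intro a _ b _ hab
        rw [Function.onFun, disjoint_left]
        intro f hf hf'
        simp only [mem_product, mem_filter] at hf hf'
        exact hab (hf.1.2.symm.trans hf'.1.2)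
    rw [h3]
    refine card_le_card ?_
    intro f hf
    simp only [mem_biUnion, mem_univ, true_and, mem_product, mem_filter] at hf
    obtain ⟨ζ, h4, h5⟩ := hf
    rw [hJ, mem_filter, mem_product]
    exact ⟨⟨h4.1, h5.1⟩, h4.2.trans h5.2.symm⟩
  refine h1.trans (Nat.mul_le_mul_left _ ?_)
  have h2 : J ⊆ H.image (fun e => (e, e)) ∪ {q ∈ H ×ˢ H | z q.1 = z q.2 ∧
      φ (lab (y q.1) (y q.2)) (x q.1) ≠ some (x q.2)} ∪ S := by
    intro q hq
    rw [hJ, mem_filter, mem_product] at hq
    rw [mem_union, mem_union, mem_image, mem_filter, hS, mem_filter, mem_product]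
    by_cases h3 : q.1 = q.2
    · exact Or.inl (Or.inl ⟨q.1, hq.1.1, Prod.ext rfl h3⟩)
    by_cases h4 : φ (lab (y q.1) (y q.2)) (x q.1) = some (x q.2)
    · exact Or.inr ⟨hq.1, hq.2, h3, h4⟩
    · exact Or.inl (Or.inr ⟨hq.1, hq.2, h4⟩)
  have h3 : #{q ∈ S | p (x q.1) = 0 ∧ p (x q.2) = 1} ≤ #(Fol H x y z p lab φ) := by
    refine Finset.card_le_card_of_injOn (fun q => ![q.1, q.2]) ?_ ?_
    · intro q hq
      simp only [hS, coe_filter, mem_filter, mem_product, Set.mem_ofPred_eq] at hq
      rw [mem_coe, mem_Fol]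
      refine ⟨?_, hq.1.2.1, hq.2.1, hq.2.2, hq.1.2.2.2⟩
      intro i
      fin_cases i
      · exact hq.1.1.1
      · exact hq.1.1.2
    · intro q _ q' _ h
      exact Prod.ext (congrFun h 0) (congrFun h 1)
  calc #J ≤ #(H.image (fun e => (e, e))) + #{q ∈ H ×ˢ H | z q.1 = z q.2 ∧
      φ (lab (y q.1) (y q.2)) (x q.1) ≠ some (x q.2)} + #S :=
        (card_le_card h2).trans ((card_union_le _ _).trans
          (Nat.add_le_add_right (card_union_le _ _) _))
    _ ≤ _ := by
        have h4 : #(H.image (fun e => (e, e))) ≤ #H := card_image_le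
        omega

end

end Pool.Agent.T2H80.Bes
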