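import Pool.Agent.T2H80.Bes.Quot

set_option autoImplicit false
set_option linter.unusedSectionVars false

open Finset

namespace Pool.Agent.T2H80.Bes

lemma pairs_lower {E Z : Type*} [DecidableEq E] [DecidableEq Z] [Fintype Z] (H : Finset E)
    (z : E → Z) {n : ℕ} (hZ : Fintype.card Z ≤ n) :
    #H ^ 2 ≤ n * #{q ∈ H ×ˢ H | z q.1 = z q.2} := by
  classical
  have h2 := power_mean (univ : Finset Z) (fun ζ => #{e ∈ H | z e = ζ}) 0 1
  simp only [Nat.zero_mul, Nat.sub_zero] at h2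
  rw [← card_eq_sum_card_fiberwise (f := z) (s := H) (t := univ) (fun _ _ => mem_univ _)] at h2
  refine h2.trans ?_
  rw [pow_one]
  refine Nat.mul_le_mul (by simpa using hZ) ?_
  have h3 : ∑ ζ : Z, #{e ∈ H | z e = ζ} ^ (1 + 1) =
      #(univ.biUnion fun ζ : Z => {e ∈ H | z e = ζ} ×ˢ {e ∈ H | z e = ζ}) := by
    rw [card_biUnion]
    · refine sum_congr rfl fun ζ _ => ?_
      rw [card_product, sq]
    · intro a _ b _ hab
      rw [Function.onFun, disjoint_left]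
      intro f hf hf'
      simp only [mem_product, mem_filter] at hf hf'
      exact hab (hf.1.2.symm.trans hf'.1.2)
  rw [h3]
  refine card_le_card ?_
  intro f hf
  simp only [mem_biUnion, mem_univ, true_and, mem_product, mem_filter] at hf
  obtain ⟨ζ, h4, h5⟩ := hf
  rw [mem_filter, mem_product]
  exact ⟨⟨h4.1, h5.1⟩, h4.2.trans h5.2.symm⟩

/-- The calculation. -/
lemma calc2 (t : ℕ) (ht : 1 ≤ t) (n h bad J T : ℕ) (hn : 1 ≤ n) (hT : 1 ≤ T)
    (hbad : 4 * (n * bad) ≤ h ^ 2) (h1 : h ^ 2 ≤ n * (h + bad + 4 * J))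
    (h2 : (J - 2 * n ^ 2) ^ 3 ≤ n ^ 4 * (t * (n ^ 2 * T))) :
    (h : ℝ) ≤ 4 * (3 + t) * ((n : ℝ) ^ (3 / 2 : ℝ) * (T : ℝ) ^ (1 / 6 : ℝ)) := by
  have hN : (1 : ℝ) ≤ n := by exact_mod_cast hn
  have hT1 : (1 : ℝ) ≤ T := by exact_mod_cast hT
  have ht1 : (1 : ℝ) ≤ t := by exact_mod_cast ht
  have hN0 : (0 : ℝ) < n := by linarith
  have hT0 : (0 : ℝ) < T := by linarith
  set W : ℝ := (n : ℝ) ^ 2 * (T : ℝ) ^ (1 / 3 : ℝ) with hW
  set B : ℝ := (n : ℝ) ^ (3 / 2 : ℝ) * (T : ℝ) ^ (1 / 6 : ℝ) with hB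
  have hTr : (1 : ℝ) ≤ (T : ℝ) ^ (1 / 3 : ℝ) := Real.one_le_rpow hT1 (by norm_num)
  have hTr6 : (1 : ℝ) ≤ (T : ℝ) ^ (1 / 6 : ℝ) := Real.one_le_rpow hT1 (by norm_num)
  have hW1 : (n : ℝ) ^ 2 ≤ W := le_mul_of_one_le_right (by positivity) hTr
  have hW0 : 0 < W := by positivity
  have hW3 : W ^ 3 = (n : ℝ) ^ 6 * T := by
    rw [hW, mul_pow, ← pow_mul, ← Real.rpow_natCast ((T : ℝ) ^ (1 / 3 : ℝ)), ← Real.rpow_mul hT0.le]
    norm_num
  have hB0 : 0 < B := by positivity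
  have hB2 : B ^ 2 = n * W := by
    rw [hB, hW, mul_pow, ← Real.rpow_natCast ((T : ℝ) ^ (1 / 6 : ℝ)), ← Real.rpow_mul hT0.le,
      ← Real.rpow_natCast ((n : ℝ) ^ (3 / 2 : ℝ)), ← Real.rpow_mul hN0.le, ← mul_assoc]
    norm_num
    left
    norm_cast
    ring
  have hnB : (n : ℝ) ≤ B := by
    have h3 : (n : ℝ) = (n : ℝ) ^ (1 : ℝ) := (Real.rpow_one _).symm
    have h4 : (n : ℝ) ≤ (n : ℝ) ^ (3 / 2 : ℝ) := by
      nth_rewrite 1 [h3]
      exact Real.rpow_le_rpow_of_exponent_le hN (by norm_num)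
    calc (n : ℝ) ≤ (n : ℝ) ^ (3 / 2 : ℝ) := h4
      _ ≤ B := le_mul_of_one_le_right (by positivity) hTr6
  have hJ1 : ((J - 2 * n ^ 2 : ℕ) : ℝ) ≤ t * W := by
    refine le_of_pow_le_pow_left₀ (n := 3) (by norm_num) (by positivity) ?_
    have h3 : ((J - 2 * n ^ 2 : ℕ) : ℝ) ^ 3 ≤ (n : ℝ) ^ 4 * (t * ((n : ℝ) ^ 2 * T)) := by
      exact_mod_cast h2
    calc ((J - 2 * n ^ 2 : ℕ) : ℝ) ^ 3 ≤ (n : ℝ) ^ 4 * (t * ((n : ℝ) ^ 2 * T)) := h3
      _ = t * W ^ 3 := by rw [hW3]; ring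
      _ ≤ (t : ℝ) ^ 3 * W ^ 3 := by
          refine mul_le_mul_of_nonneg_right ?_ (by positivity)
          exact le_self_pow₀ ht1 (by norm_num)
      _ = (t * W) ^ 3 := by ring
  have hJ2 : (J : ℝ) ≤ (2 + t) * W := by
    have h3 : (J : ℝ) ≤ ((J - 2 * n ^ 2 : ℕ) : ℝ) + 2 * (n : ℝ) ^ 2 := by
      have : J ≤ (J - 2 * n ^ 2) + 2 * n ^ 2 := by omega
      exact_mod_cast this
    linarith
  have h3 : (h : ℝ) ^ 2 ≤ n * (h + bad + 4 * J) := by exact_mod_cast h1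
  have h4 : 4 * ((n : ℝ) * bad) ≤ (h : ℝ) ^ 2 := by exact_mod_cast hbad
  have h5 : (n : ℝ) * J ≤ (2 + t) * B ^ 2 := by
    rw [hB2]
    calc (n : ℝ) * J ≤ n * ((2 + t) * W) := mul_le_mul_of_nonneg_left hJ2 hN0.le
      _ = _ := by ring
  have hh0 : (0 : ℝ) ≤ h := Nat.cast_nonneg h
  have h6 : (n : ℝ) * h ≤ B * h := mul_le_mul_of_nonneg_right hnB hh0
  have h7 : 3 / 4 * (h : ℝ) ^ 2 ≤ B * h + 4 * ((2 + t) * B ^ 2) := by
    have h8 : (n : ℝ) * (h + bad + 4 * J) = n * h + n * bad + 4 * (n * J) := by ring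
    rw [h8] at h3
    linarith
  by_contra hcon
  push Not at hcon
  have h8 : 0 < (h : ℝ) := lt_trans (by positivity) hcon
  have h12 : 0 < B * (h : ℝ) := by positivity
  have h9 : 4 * (3 + (t : ℝ)) * (B * B) ≤ B * h := by
    calc 4 * (3 + (t : ℝ)) * (B * B) = B * (4 * (3 + t) * B) := by ring
      _ ≤ B * h := mul_le_mul_of_nonneg_left hcon.le hB0.le
  have h10 : 4 * (3 + (t : ℝ)) * (B * h) ≤ (h : ℝ) ^ 2 := by
    calc 4 * (3 + (t : ℝ)) * (B * h) = (4 * (3 + t) * B) * h := by ring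
      _ ≤ h * h := mul_le_mul_of_nonneg_right hcon.le hh0
      _ = (h : ℝ) ^ 2 := by ring
  have h11 : 4 * ((2 + t) * B ^ 2) ≤ B * h := by
    have h13 : 0 ≤ B * B := by positivity
    have h14 : 4 * ((2 + (t : ℝ)) * B ^ 2) = 4 * (3 + t) * (B * B) - 4 * (B * B) := by ring
    rw [h14]
    linarith
  have h15 : 4 * (3 + (t : ℝ)) * (B * h) = 12 * (B * h) + 4 * (t * (B * h)) := by ring
  have h16 : 0 ≤ (t : ℝ) * (B * h) := by positivity
  rw [h15] at h10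
  linarith

/-- Few quotients of the columns, the general form. -/
theorem few_quot (k : ℕ) (hk : k = 21 ∨ 25 ≤ k) : ∃ c C : ℝ, 0 < c ∧ 0 < C ∧
    ∀ (V Γ : Type) [Fintype V] [DecidableEq V] [Fintype Γ] (x y z : Finset V → V)
      (H : Finset (Finset V)) (lab : V → V → Γ) (φ : Γ → V → Option V),
      (∀ e ∈ H, e.card = 3 ∧ e = {x e, y e, z e}) →
      (∀ S : Finset V, S.card = k → #{e ∈ H | e ⊆ S} < k - 3) →
      (Fintype.card V : ℝ) * #{q ∈ H ×ˢ H | z q.1 = z q.2 ∧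
        φ (lab (y q.1) (y q.2)) (x q.1) ≠ some (x q.2)} ≤ c * (#H : ℝ) ^ 2 →
      (#H : ℝ) ≤ C * ((Fintype.card V : ℝ) ^ (3 / 2 : ℝ) *
        ((∑ g : Γ, #{v | φ g v ≠ none} : ℕ) : ℝ) ^ (1 / 6 : ℝ)) := by
  classical
  obtain ⟨s, rfl⟩ : ∃ s, k = s + 3 := ⟨k - 3, by omega⟩
  have hs : s = 18 ∨ 22 ≤ s := by omega
  have hs1 : 1 ≤ s := by omega
  have hsr : (1 : ℝ) ≤ s := by exact_mod_cast hs1
  refine ⟨1 / (36 * (s : ℝ) ^ 2), (s + 3 : ℝ) ^ 3 + 3 * s * (4 * (3 + s)), by positivity,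
    by positivity, ?_⟩
  intro V Γ _ _ _ x y z H lab φ h3 hfree hbad
  obtain ⟨n, hn⟩ : ∃ n, n = Fintype.card V := ⟨_, rfl⟩
  obtain ⟨T, hT⟩ : ∃ T, T = ∑ g : Γ, #{v | φ g v ≠ none} := ⟨_, rfl⟩
  rw [← hT, ← hn]
  rw [← hn] at hbad
  rcases H.eq_empty_or_nonempty with rfl | hH
  · rw [card_empty, Nat.cast_zero]
    positivity
  obtain ⟨e0, he0⟩ := hH
  have hh1 : (1 : ℝ) ≤ #H := by exact_mod_cast card_pos.2 ⟨e0, he0⟩
  have hn1 : 1 ≤ n := by
    rw [hn, Nat.succ_le_iff, Fintype.card_pos_iff]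
    exact ⟨x e0⟩
  have hN : (1 : ℝ) ≤ n := by exact_mod_cast hn1
  have hc1 : 1 / (36 * (s : ℝ) ^ 2) < 1 := by
    rw [div_lt_one (by positivity)]
    nlinarith
  -- the labels cannot be trivial
  have hT1 : 1 ≤ T := by
    by_contra hcon
    have hT0 : T = 0 := by omega
    have h4 : ∀ g v, φ g v = none := by
      intro g v
      by_contra h
      have h5 : #{v | φ g v ≠ none} ≤ T := by
        rw [hT]
        exact single_le_sum (f := fun g : Γ => #{v | φ g v ≠ none}) (fun _ _ => Nat.zero_le _)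
          (mem_univ g)
      have h6 : 0 < #{v | φ g v ≠ none} := card_pos.2 ⟨v, by simpa using h⟩
      omega
    have h5 := pairs_lower H z (n := n) hn.ge
    have h6 : #{q ∈ H ×ˢ H | z q.1 = z q.2} ≤ #{q ∈ H ×ˢ H | z q.1 = z q.2 ∧
        φ (lab (y q.1) (y q.2)) (x q.1) ≠ some (x q.2)} := by
      refine card_le_card ?_
      intro q hq
      rw [mem_filter] at hq ⊢
      refine ⟨hq.1, hq.2, ?_⟩
      rw [h4]
      exact (Option.some_ne_none _).symm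
    have h7 : (#H : ℝ) ^ 2 ≤ n * #{q ∈ H ×ˢ H | z q.1 = z q.2 ∧
        φ (lab (y q.1) (y q.2)) (x q.1) ≠ some (x q.2)} := by
      exact_mod_cast h5.trans (Nat.mul_le_mul_left _ h6)
    have h8 : 0 < (#H : ℝ) ^ 2 := by positivity
    nlinarith
  have hTr : (1 : ℝ) ≤ T := by exact_mod_cast hT1
  have hb1 : (1 : ℝ) ≤ (n : ℝ) ^ (3 / 2 : ℝ) := Real.one_le_rpow hN (by norm_num)
  have hb2 : (1 : ℝ) ≤ (T : ℝ) ^ (1 / 6 : ℝ) := Real.one_le_rpow hTr (by norm_num)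
  have hb3 : (1 : ℝ) ≤ (n : ℝ) ^ (3 / 2 : ℝ) * (T : ℝ) ^ (1 / 6 : ℝ) := by nlinarith
  rcases lt_or_ge n (s + 3) with hns | hns
  · -- few vertices
    have h1 : #H ≤ n ^ 3 := by
      calc #H ≤ #((univ : Finset V).powersetCard 3) := by
            refine card_le_card fun e he => ?_
            rw [mem_powersetCard]
            exact ⟨subset_univ _, (h3 e he).1⟩
        _ = n.choose 3 := by rw [card_powersetCard, card_univ, hn]
        _ ≤ n ^ 3 := Nat.choose_le_pow _ _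
    have h2 : (#H : ℝ) ≤ (s + 3 : ℝ) ^ 3 := by
      have h4 : (#H : ℝ) ≤ (n : ℝ) ^ 3 := by exact_mod_cast h1
      refine h4.trans (pow_le_pow_left₀ (by positivity) ?_ _)
      exact_mod_cast hns.le
    have h5 : (0 : ℝ) ≤ 3 * s * (4 * (3 + s)) := by positivity
    calc (#H : ℝ) ≤ ((s + 3 : ℝ) ^ 3 + 3 * s * (4 * (3 + s))) * 1 := by linarith
      _ ≤ _ := mul_le_mul_of_nonneg_left hb3 (by positivity)
  · -- the sparsity condition for sets of edges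
    have hsp : ∀ T ⊆ H, T.card = s → s + 3 < (T.biUnion id).card := by
      intro T hT hTc
      by_contra hcon
      push Not at hcon
      obtain ⟨S, hS1, hS2⟩ := exists_superset_card_eq hcon (hn ▸ hns)
      have h1 := hfree S hS2
      have h2 : T ⊆ {e ∈ H | e ⊆ S} := by
        intro e he
        rw [mem_filter]
        refine ⟨hT he, ?_⟩
        exact (subset_biUnion_of_mem id he).trans hS1
      have h3 := card_le_card h2
      omega
    obtain ⟨H', hH', hlin', hcard⟩ := exists_linear H (fun e he => (h3 e he).1) hsp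
    have hL := lin_of H' x y z (fun e he => h3 e (hH' he)) hlin'
    have hG : ¬ Grid H' x y z 2 3 s := by
      intro hG
      obtain ⟨T, hT, hTc, hTs⟩ := grid_sub hs H' x y z (fun e he => (h3 e (hH' he)).2) hG
      have := hsp T (hT.trans hH') hTc
      omega
    obtain ⟨p, hp⟩ := fol_lower (n := n) hL hn.ge lab φ
    have hc := count_fol (s := 2) (t := s) (n := n) (T := T) (p := p) hL lab φ hn.ge hn.ge
      hT.ge hG
    have hbad' : 4 * (n * #{q ∈ H' ×ˢ H' | z q.1 = z q.2 ∧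
        φ (lab (y q.1) (y q.2)) (x q.1) ≠ some (x q.2)}) ≤ #H' ^ 2 := by
      have h1 : (#{q ∈ H' ×ˢ H' | z q.1 = z q.2 ∧
          φ (lab (y q.1) (y q.2)) (x q.1) ≠ some (x q.2)} : ℝ) ≤
          #{q ∈ H ×ˢ H | z q.1 = z q.2 ∧
          φ (lab (y q.1) (y q.2)) (x q.1) ≠ some (x q.2)} := by
        have : #{q ∈ H' ×ˢ H' | z q.1 = z q.2 ∧
          φ (lab (y q.1) (y q.2)) (x q.1) ≠ some (x q.2)} ≤
          #{q ∈ H ×ˢ H | z q.1 = z q.2 ∧
          φ (lab (y q.1) (y q.2)) (x q.1) ≠ some (x q.2)} := by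
          refine card_le_card ?_
          intro q hq
          rw [mem_filter, mem_product] at hq ⊢
          exact ⟨⟨hH' hq.1.1, hH' hq.1.2⟩, hq.2⟩
        exact_mod_cast this
      have h2 : (#H : ℝ) ≤ 3 * s * #H' := by exact_mod_cast hcard
      have h4 : (#H : ℝ) ^ 2 ≤ (3 * s * #H') ^ 2 := pow_le_pow_left₀ (by positivity) h2 2
      have h5 : (4 : ℝ) * ((n : ℝ) * #{q ∈ H' ×ˢ H' | z q.1 = z q.2 ∧
          φ (lab (y q.1) (y q.2)) (x q.1) ≠ some (x q.2)}) ≤ (#H' : ℝ) ^ 2 := by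
        calc (4 : ℝ) * ((n : ℝ) * #{q ∈ H' ×ˢ H' | z q.1 = z q.2 ∧
          φ (lab (y q.1) (y q.2)) (x q.1) ≠ some (x q.2)})
            ≤ 4 * ((n : ℝ) * #{q ∈ H ×ˢ H | z q.1 = z q.2 ∧
              φ (lab (y q.1) (y q.2)) (x q.1) ≠ some (x q.2)}) := by
              refine mul_le_mul_of_nonneg_left ?_ (by norm_num)
              exact mul_le_mul_of_nonneg_left h1 (by positivity)
          _ ≤ 4 * (1 / (36 * (s : ℝ) ^ 2) * (3 * s * #H') ^ 2) := by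
              refine mul_le_mul_of_nonneg_left (hbad.trans ?_) (by norm_num)
              exact mul_le_mul_of_nonneg_left h4 (by positivity)
          _ = (#H' : ℝ) ^ 2 := by
              have hs0 : (s : ℝ) ≠ 0 := by positivity
              field_simp
              ring
      exact_mod_cast h5
    have hmain := calc2 s hs1 n #H' _ _ T hn1 hT1 hbad' hp hc
    have h1 : (#H : ℝ) ≤ 3 * s * #H' := by exact_mod_cast hcard
    calc (#H : ℝ) ≤ 3 * s * #H' := h1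
      _ ≤ 3 * s * (4 * (3 + s) * ((n : ℝ) ^ (3 / 2 : ℝ) * (T : ℝ) ^ (1 / 6 : ℝ))) :=
          mul_le_mul_of_nonneg_left hmain (by positivity)
      _ ≤ _ := by
          have h5 : 0 ≤ (s + 3 : ℝ) ^ 3 * ((n : ℝ) ^ (3 / 2 : ℝ) * (T : ℝ) ^ (1 / 6 : ℝ)) := by
            positivity
          linarith

end Pool.Agent.T2H80.Bes
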